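import Pool.Agent.J4H92.CP.ListP

/-!
# Certificates: products with triangles
-/

set_option autoImplicit false

namespace Pool.Agent.J4H92.CP

open SimpleGraph

/-- certificate -/
def cC3p : Crt where
  C := 56
  S := 176
  P := 1218407518127209467346944
  H := 1208925819614633486450688
  T := 1061153
  R := []

theorem base_C3p : MuL 2 0 [fK] :=
  Coded.mu ((coded_top 3).prod coded_unit) cC3p (by decide +kernel)

/-- certificate -/
def cC3C3p : Crt where
  C := 33627
  S := 28166954400
  P := 11709370349884229596687599119023517948257444087989650911525037118686729014503266124288
  H := 3900514885624284525854013884812355266509581145462020727503612386395682809152891126016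
  T := 4599194368
  R := []

theorem base_C3C3p : MuL 1 0 [fK, fK] :=
  Coded.mu ((coded_top 3).prod ((coded_top 3).prod coded_unit)) cC3C3p (by decide +kernel)

/-- certificate -/
def cQ2C3p : Crt where
  C := 14203958
  S := 23307260797979
  P := 5434628809816809319645849491253276251893805696658544294981590464124302140608073699856508835630910573572354211843
  H := 2407256147763135494750735081151261764241236158825663357133776719077670784413557723547968454166154274441011396610
  T := 3302847812145
  R := []

theorem base_Q2C3p : MuL 1 0 [fT 2 pS, fT 2 pS, fK] :=
  Coded.mu ((coded_Ta 2 pS).prod ((coded_Ta 2 pS).prod ((coded_top 3).prod coded_unit))) cQ2C3p (by decide +kernel)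

/-- certificate -/
def cQ2C3C3 : Crt where
  C := 2079322973087228651347
  S := 12644450853177499801523781214502422671711618
  P := 4089294396199381525723043175956757738673572077478538486800264362222609470424018317215226403844184632043817678365490306115616825676307842822267271016792015354326019910357532664463850037833574734388940045164709118034363006059309427992582426128294340854167046644782015277944287985119381488483423088204535992418014921154657452267131210527949462045202
  H := 719663516703435754558897883109047905025349080490291226880392034163679038179449891081513750204321818872610944543377159544710173583451658380608379218082086002432905938142164237420856093039744333742333423427611905027479626935563837291178734859045295278858964173240395090693390697906829295634927149304331007574059674012374553187529441619870761615619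
  T := 0
  R := [135, 11, 122, 76, 94, 57]

theorem base_Q2C3C3 : MuL 0 6 [fT 2 pS, fT 2 pS, fK, fK] :=
  Coded.mu ((coded_Ta 2 pS).prod ((coded_Ta 2 pS).prod ((coded_top 3).prod ((coded_top 3).prod coded_unit)))) cQ2C3C3 (by decide +kernel)

/-- certificate -/
def cC3C3C3 : Crt where
  C := 12654428852083687
  S := 207920855250599856196549844415045
  P := 11051212147811457196944657199186180109141333657374625828401015408182347406505471566429221576848675414906863791025292640607755166151943800013668469567037971419824752248660116920323369505377349410157050723061432164019542027826227086520730536520459538518367141897
  H := 480495740163187891958965924253552911958875708897964569217857882579837447541092035033803942867295586613480441281878478655499373341795678199229021559279426303423250036136163036526905010787345043884058409468608016620189857279503772570146500265240655008498909188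
  T := 0
  R := [100, 1, 94, 49, 45, 104]

theorem base_C3C3C3 : MuL 0 6 [fK, fK, fK] :=
  Coded.mu ((coded_top 3).prod ((coded_top 3).prod ((coded_top 3).prod coded_unit))) cC3C3C3 (by decide +kernel)

end Pool.Agent.J4H92.CP
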