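import Pool.Agent.J4H92.CP.Iso

/-!
# Certificates for the number of degrees of freedom

The vertices are put near the four points `0, e₁, e₂, e₃`; the small displacements inside a class are
sums of directions to the other three points. All edges have directions among the six directions of
pairs of the four points, the system splits into scalar equations, and the certificate gives for each
scalar unknown an edge to an unknown which is smaller.
-/

set_option autoImplicit false

namespace Pool.Agent.J4H92.CP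

open Module SimpleGraph

/-- class of a vertex -/
def cl (C v : ℕ) : ℕ := (C >>> (2 * v)) &&& 3

/-- digit of the displacement -/
def sb (S v l : ℕ) : Bool := Nat.testBit S (4 * v + l)

/-- table lookup -/
def tb (P v k : ℕ) : ℕ := (P >>> (8 * (4 * v + k))) &&& 255

/-- a certificate: classes, displacements, parents, heights, pins, roots -/
structure Crt where
  C : ℕ
  S : ℕ
  P : ℕ
  H : ℕ
  T : ℕ
  R : List ℕ

/-- the displacements agree except at `k` -/
def ag (S v w k : ℕ) : Bool :=
  (Nat.beq k 0 || (sb S v 0 == sb S w 0)) && (Nat.beq k 1 || (sb S v 1 == sb S w 1)) &&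
  (Nat.beq k 2 || (sb S v 2 == sb S w 2)) && (Nat.beq k 3 || (sb S v 3 == sb S w 3))

/-- pin `i` at `v` -/
def pinT (T j v i : ℕ) : ℕ := (T >>> (4 * (j * v + i))) &&& 15

/-- one of the `j` pins at `v` fixes `k` -/
def pinned (T j v k : ℕ) : ℕ → Bool
  | 0 => false
  | i + 1 => Nat.beq (pinT T j v i) k || pinned T j v k i

/-- the check of the unknown `(v, k)` -/
def ck (c : Crt) (adj : ℕ → ℕ → Bool) (N j v k : ℕ) : Bool :=
  Nat.beq (cl c.C v) k || pinned c.T j v k j || c.R.any (fun r => Nat.beq r (4 * v + k)) ||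
  (Nat.blt (tb c.P v k) N && adj v (tb c.P v k) &&
    (if Nat.beq (cl c.C (tb c.P v k)) (cl c.C v) then
      (Nat.blt (tb c.H (tb c.P v k) k) (tb c.H v k) &&
        ((sb c.S v k != sb c.S (tb c.P v k) k) && ag c.S v (tb c.P v k) k))
    else (Nat.beq (cl c.C (tb c.P v k)) k &&
      Nat.blt (tb c.H (tb c.P v k) (cl c.C v)) (tb c.H v k))))

/-- all below `n` -/
def ball (f : ℕ → Bool) : ℕ → Bool
  | 0 => true
  | n + 1 => f n && ball f n

/-- the check -/
def Crt.check (c : Crt) (adj : ℕ → ℕ → Bool) (N j : ℕ) : Bool :=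
  ball (fun v => ck c adj N j v 0 && ck c adj N j v 1 && ck c adj N j v 2 && ck c adj N j v 3) N

theorem ball_spec {f : ℕ → Bool} {n : ℕ} (h : ball f n = true) : ∀ i < n, f i = true := by
  induction n with
  | zero => intro i hi; omega
  | succ n ih =>
    rw [ball, Bool.and_eq_true] at h
    intro i hi
    rcases Nat.lt_succ_iff_lt_or_eq.1 hi with hi | rfl
    · exact ih h.2 i hi
    · exact h.1

theorem pinned_spec {T j v k n : ℕ} (h : pinned T j v k n = true) :
    ∃ i < n, pinT T j v i = k := by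
  induction n with
  | zero => exact absurd h (by simp [pinned])
  | succ n ih =>
    rw [pinned, Bool.or_eq_true] at h
    rcases h with h | h
    · exact ⟨n, Nat.lt_succ_self n, Nat.eq_of_beq_eq_true h⟩
    · obtain ⟨i, hi, h⟩ := ih h
      exact ⟨i, Nat.lt_succ_of_lt hi, h⟩

theorem cl_lt (C v : ℕ) : cl C v < 4 := by
  unfold cl
  exact Nat.lt_succ_of_le Nat.and_le_right

/-- the four points -/
def qp (i : ℕ) : Fin 3 → ℝ := fun t => if i = (t : ℕ) + 1 then 1 else 0

/-- the scalar unknowns -/
noncomputable def xx (C : ℕ) {N : ℕ} (m : Fin N → Fin 3 → ℝ) (v : Fin N) (k : ℕ) : ℝ :=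
  (qp k - qp (cl C v)) ⬝ᵥ m v

/-- the displacements -/
noncomputable def sv (C S : ℕ) {N : ℕ} (v : Fin N) : Fin 3 → ℝ :=
  ∑ l ∈ Finset.range 4, (if sb S v l then (1 : ℝ) else 0) • (qp l - qp (cl C v))

theorem sv_sub {C S N : ℕ} {v w : Fin N} {k : ℕ} (hk : k < 4) (hc : cl C w = cl C v)
    (hs : (sb S v k != sb S w k) = true) (ha : ag S v w k = true) :
    ∃ t : ℝ, t ≠ 0 ∧ sv C S v - sv C S w = t • (qp k - qp (cl C v)) := by
  unfold ag at ha
  simp only [Bool.and_eq_true, Bool.or_eq_true, beq_iff_eq] at ha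
  obtain ⟨⟨⟨h0, h1⟩, h2⟩, h3⟩ := ha
  rw [bne_iff_ne] at hs
  refine ⟨(if sb S v k then (1 : ℝ) else 0) - (if sb S w k then (1 : ℝ) else 0), ?_, ?_⟩
  · cases hv : sb S v k <;> cases hw : sb S w k <;> simp_all
  · unfold sv
    rw [hc, ← Finset.sum_sub_distrib, Finset.sum_eq_single k]
    · rw [sub_smul]
    · intro l hl hlk
      rw [Finset.mem_range] at hl
      have : sb S v l = sb S w l := by
        interval_cases l
        · exact h0.resolve_left (fun h => hlk (Nat.eq_of_beq_eq_true h).symm)
        · exact h1.resolve_left (fun h => hlk (Nat.eq_of_beq_eq_true h).symm)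
        · exact h2.resolve_left (fun h => hlk (Nat.eq_of_beq_eq_true h).symm)
        · exact h3.resolve_left (fun h => hlk (Nat.eq_of_beq_eq_true h).symm)
      rw [this, sub_self]
    · intro h
      exact absurd (Finset.mem_range.2 hk) h

theorem zero_of_xx {C N : ℕ} {m : Fin N → Fin 3 → ℝ} {v : Fin N}
    (h : ∀ k < 4, xx C m v k = 0) : m v = 0 := by
  have h0 := h 0 (by norm_num)
  have key : ∀ k, xx C m v k = qp k ⬝ᵥ m v - qp (cl C v) ⬝ᵥ m v := fun k => by
    unfold xx
    rw [sub_dotProduct]
  rw [key] at h0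
  have e0 : qp 0 ⬝ᵥ m v = 0 := by
    have : qp 0 = 0 := by
      funext t
      simp [qp]
    rw [this, zero_dotProduct]
  have e1 : qp (cl C v) ⬝ᵥ m v = 0 := by linarith
  funext t
  have h1 := h (t + 1) (by omega)
  rw [key, e1, sub_zero] at h1
  have e2 : qp ((t : ℕ) + 1) ⬝ᵥ m v = m v t := by
    have : qp ((t : ℕ) + 1) = Pi.single t 1 := by
      funext s
      by_cases hst : s = t
      · subst hst
        simp [qp]
      · have : ((t : ℕ) + 1 = (s : ℕ) + 1) ↔ False := by
          constructor
          · intro h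
            exact hst (Fin.ext (by omega))
          · exact False.elim
        simp [qp, hst, this]
        intro h
        exact absurd (Fin.ext h.symm) hst
    rw [this, single_dotProduct, one_mul]
  rw [e2] at h1
  exact h1

theorem cert_sound {N j : ℕ} {adj : ℕ → ℕ → Bool} {G : SimpleGraph (Fin N)}
    (hadj : ∀ u v : Fin N, adj u v = true → G.Adj u v) (c : Crt) (h : c.check adj N j = true) :
    Mu j c.R.length G := by
  classical
  refine mu_of_lim (C := ℕ) (fun v : Fin N => cl c.C v) qp (sv c.C c.S)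
    (fun v i => qp (pinT c.T j v i) - qp (cl c.C v)) ?_
  set K := Sol G (lim (fun v : Fin N => cl c.C v) qp (sv c.C c.S))
    (fun v (i : Fin j) => qp (pinT c.T j v i) - qp (cl c.C v)) with hK
  -- the steps
  have hstep : ∀ m ∈ K, ∀ v w : Fin N, adj v w = true → ∀ k < 4,
      (cl c.C w = cl c.C v → (sb c.S v k != sb c.S w k) = true → ag c.S v w k = true →
        xx c.C m w k = 0 → xx c.C m v k = 0) ∧
      (cl c.C w ≠ cl c.C v → cl c.C w = k → xx c.C m w (cl c.C v) = 0 → xx c.C m v k = 0) := by
    intro m hm v w hvw k hk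
    have h1 := hm.1 v w (hadj v w hvw)
    constructor
    · intro hc hs ha hw
      obtain ⟨t, ht, hst⟩ := sv_sub (C := c.C) (v := v) (w := w) hk hc hs ha
      rw [lim_eq (c := fun v : Fin N => cl c.C v) _ _ hc.symm, hst, smul_dotProduct, smul_eq_mul,
        mul_eq_zero] at h1
      have h2 := h1.resolve_left ht
      rw [dotProduct_sub, sub_eq_zero] at h2
      unfold xx at hw ⊢
      rw [h2, ← hw, hc]
    · intro hc hk' hw
      rw [lim_ne (c := fun v : Fin N => cl c.C v) _ _ (Ne.symm hc)] at h1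
      unfold xx at hw ⊢
      rw [dotProduct_sub, sub_eq_zero] at h1
      rw [← hk']
      rw [show qp (cl c.C w) - qp (cl c.C v) = -(qp (cl c.C v) - qp (cl c.C w)) by abel,
        neg_dotProduct, h1, hw, neg_zero]
  have hcheck : ∀ v : Fin N, ∀ k < 4, ck c adj N j v k = true := by
    intro v k hk
    have h1 := ball_spec h v v.2
    simp only [Bool.and_eq_true] at h1
    obtain ⟨⟨⟨h0, h1⟩, h2⟩, h3⟩ := h1
    interval_cases k
    · exact h0
    · exact h1
    · exact h2
    · exact h3
  have hzero : ∀ m ∈ K, (∀ v : Fin N, ∀ k < 4, 4 * (v : ℕ) + k ∈ c.R → xx c.C m v k = 0) →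
      m = 0 := by
    intro m hm hroot
    have key : ∀ n, ∀ v : Fin N, ∀ k < 4, tb c.H v k = n → xx c.C m v k = 0 := by
      intro n
      induction n using Nat.strong_induction_on with
      | _ n ih =>
        intro v k hk hn
        have h1 := hcheck v k hk
        unfold ck at h1
        rw [Bool.or_eq_true, Bool.or_eq_true, Bool.or_eq_true] at h1
        rcases h1 with ((h1 | h1) | h1) | h1
        · have h2 := Nat.eq_of_beq_eq_true h1
          unfold xx
          rw [h2, sub_self, zero_dotProduct]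
        · obtain ⟨i, hi, h2⟩ := pinned_spec h1
          have h3 := hm.2 v ⟨i, hi⟩
          simp only [h2] at h3
          exact h3
        · rw [List.any_eq_true] at h1
          obtain ⟨r, hr, h2⟩ := h1
          have h3 := Nat.eq_of_beq_eq_true h2
          rw [h3] at hr
          exact hroot v k hk hr
        · rw [Bool.and_eq_true, Bool.and_eq_true] at h1
          obtain ⟨⟨hN, ha⟩, h1⟩ := h1
          have hN' : tb c.P v k < N := by
            rw [Nat.blt] at hN
            exact Nat.le_of_ble_eq_true hN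
          have hst := hstep m hm v ⟨tb c.P v k, hN'⟩ ha k hk
          simp only at hst
          split_ifs at h1 with hc
          · rw [Bool.and_eq_true, Bool.and_eq_true] at h1
            obtain ⟨h2, h3, h4⟩ := h1
            have h2' : tb c.H (tb c.P v k) k < tb c.H v k := by
              rw [Nat.blt] at h2
              exact Nat.le_of_ble_eq_true h2
            exact hst.1 (Nat.eq_of_beq_eq_true hc) h3 h4
              (ih _ (hn ▸ h2') ⟨tb c.P v k, hN'⟩ k hk rfl)
          · rw [Bool.and_eq_true] at h1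
            obtain ⟨h2, h3⟩ := h1
            have h3' : tb c.H (tb c.P v k) (cl c.C v) < tb c.H v k := by
              rw [Nat.blt] at h3
              exact Nat.le_of_ble_eq_true h3
            refine hst.2 (fun h => hc ?_) (Nat.eq_of_beq_eq_true h2)
              (ih _ (hn ▸ h3') ⟨tb c.P v k, hN'⟩ _ (cl_lt _ _) rfl)
            rw [h]
            exact Nat.beq_refl _
    funext v
    exact zero_of_xx (C := c.C) (fun k hk => key _ v k hk rfl)
  -- the injection
  let ev : Fin N → ℕ → ((Fin N → Fin 3 → ℝ) →ₗ[ℝ] ℝ) := fun v k =>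
    { toFun := fun m => xx c.C m v k
      map_add' := fun m m' => by
        unfold xx
        rw [Pi.add_apply, dotProduct_add]
      map_smul' := fun a m => by
        unfold xx
        rw [Pi.smul_apply, dotProduct_smul]
        rfl }
  let Φ : (Fin N → Fin 3 → ℝ) →ₗ[ℝ] (Fin c.R.length → ℝ) :=
    LinearMap.pi fun i => if hi : c.R[i] / 4 < N then ev ⟨c.R[i] / 4, hi⟩ (c.R[i] % 4) else 0
  have hinj : Function.Injective (Φ.domRestrict K) := by
    rw [injective_iff_map_eq_zero]
    rintro ⟨m, hm⟩ h0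
    rw [Subtype.ext_iff]
    refine hzero m hm ?_
    intro v k hk hR
    obtain ⟨i, hi, hiR⟩ := List.mem_iff_getElem.1 hR
    have h1 := congrFun h0 ⟨i, hi⟩
    have h2 : (c.R[i]) / 4 = v := by rw [hiR]; omega
    have h3 : (c.R[i]) % 4 = k := by rw [hiR]; omega
    have h4 : (c.R[i]) / 4 < N := by rw [h2]; exact v.2
    have h5 : Φ m ⟨i, hi⟩ = xx c.C m ⟨(c.R[i]) / 4, h4⟩ ((c.R[i]) % 4) := by
      simp only [Φ, LinearMap.pi_apply, Fin.getElem_fin, h4, dif_pos]
      rfl
    have h6 : Φ m ⟨i, hi⟩ = 0 := h1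
    rw [h5] at h6
    have h7 : (⟨(c.R[i]) / 4, h4⟩ : Fin N) = v := Fin.ext h2
    rw [h7, h3] at h6
    exact h6
  have := LinearMap.finrank_le_finrank_of_injective hinj
  rwa [Module.finrank_fintype_fun_eq_card, Fintype.card_fin] at this

/-! ### Coded graphs -/

/-- the graph of a code -/
def gA (N : ℕ) (a : ℕ → ℕ → Bool) : SimpleGraph (Fin N) where
  Adj u v := u ≠ v ∧ (a u v = true ∨ a v u = true)
  symm := ⟨fun _ _ h => ⟨h.1.symm, h.2.symm⟩⟩
  loopless := ⟨fun _ h => h.1 rfl⟩

/-- All edges of the code `a` are edges of `G`. -/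
def Coded {V : Type*} (G : SimpleGraph V) (N : ℕ) (a : ℕ → ℕ → Bool) : Prop :=
  ∃ e : V ≃ Fin N, ∀ u v : Fin N, a u v = true → G.Adj (e.symm u) (e.symm v)

theorem Coded.mu {V : Type*} [Finite V] {G : SimpleGraph V} {N : ℕ} {a : ℕ → ℕ → Bool}
    (hG : Coded G N a) {j : ℕ} (c : Crt) (h : c.check a N j = true) : Mu j c.R.length G := by
  obtain ⟨e, he⟩ := hG
  have hadj : ∀ u v : Fin N, a u v = true → (gA N a).Adj u v := by
    intro u v huv
    refine ⟨fun hc => ?_, Or.inl huv⟩
    subst hc
    exact (he u u huv).ne rfl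
  refine (cert_sound hadj c h).pull e ?_
  rintro u v ⟨_, h | h⟩
  · exact he u v h
  · exact (he v u h).symm

/-- the code of a product -/
def aP (n : ℕ) (a b : ℕ → ℕ → Bool) (x y : ℕ) : Bool :=
  (Nat.beq (x / n) (y / n) && b (x % n) (y % n)) || (Nat.beq (x % n) (y % n) && a (x / n) (y / n))

theorem Coded.prod {V W : Type*} {G : SimpleGraph V} {H : SimpleGraph W} {m n : ℕ}
    {a b : ℕ → ℕ → Bool} (hG : Coded G m a) (hH : Coded H n b) :
    Coded (G □ H) (m * n) (aP n a b) := by
  obtain ⟨e, he⟩ := hG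
  obtain ⟨f, hf⟩ := hH
  refine ⟨(Equiv.prodCongr e f).trans finProdFinEquiv, ?_⟩
  intro u v huv
  rw [aP, Bool.or_eq_true, Bool.and_eq_true, Bool.and_eq_true] at huv
  have h1 : ∀ z : Fin (m * n), ((Equiv.prodCongr e f).trans finProdFinEquiv).symm z =
      (e.symm z.divNat, f.symm z.modNat) := fun z => rfl
  rw [h1, h1]
  rcases huv with ⟨h2, h3⟩ | ⟨h2, h3⟩
  · refine Or.inr ⟨hf _ _ h3, ?_⟩
    have h4 : u.divNat = v.divNat := Fin.ext (Nat.eq_of_beq_eq_true h2)
    simp only [h4]
  · refine Or.inl ⟨he _ _ h3, ?_⟩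
    have h4 : u.modNat = v.modNat := Fin.ext (Nat.eq_of_beq_eq_true h2)
    simp only [h4]

end Pool.Agent.J4H92.CP
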