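import Pool.Agent.J4H92.CP.Count

/-!
# Classification for lists
-/

set_option autoImplicit false

namespace Pool.Agent.J4H92.CP

open SimpleGraph

/-- number of vertices -/
def cd (A : FG) : ℕ := Fintype.card A.V

/-- the exceptional lists -/
def Flex (L : List FG) : Prop :=
  L.length = 5 ∧ (∀ A ∈ L, A.G.IsAcyclic) ∧
    (4 ≤ (L.map cd).count 2 ∨ (3 ≤ (L.map cd).count 2 ∧ (L.map cd).sum ≤ 13))

theorem Flex.perm {L L' : List FG} (h : L.Perm L') (hL : Flex L) : Flex L' := by
  obtain ⟨h1, h2, h3⟩ := hL
  refine ⟨by rw [← h.length_eq]; exact h1, fun A hA => h2 A (h.mem_iff.2 hA), ?_⟩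
  rw [← (h.map cd).count_eq, ← (h.map cd).sum_eq]
  exact h3

theorem len_five {α : Type*} {L : List α} (h : L.length = 5) : ∃ a b c d e, L = [a, b, c, d, e] := by
  match L, h with
  | [a, b, c, d, e], _ => exact ⟨a, b, c, d, e, rfl⟩

theorem len_four {α : Type*} {L : List α} (h : L.length = 4) : ∃ a b c d, L = [a, b, c, d] := by
  match L, h with
  | [a, b, c, d], _ => exact ⟨a, b, c, d, rfl⟩

theorem tree_e {A : FG} (hN : Nt A) (hA : A.G.IsAcyclic) : A.G.edgeSet.ncard + 1 = cd A :=
  tree_count ⟨hN.1, hA⟩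

theorem five_sorted {A B C D E : FG} (hA : Nt A) (hB : Nt B) (hC : Nt C) (hD : Nt D) (hE : Nt E)
    (ab : cd A ≤ cd B) (bc : cd B ≤ cd C) (c_d : cd C ≤ cd D) (de : cd D ≤ cd E)
    (tA : A.G.IsAcyclic) (tB : B.G.IsAcyclic) (tC : C.G.IsAcyclic) (tD : D.G.IsAcyclic)
    (tE : E.G.IsAcyclic) :
    (¬ Flex [A, B, C, D, E] → MuL 0 6 [A, B, C, D, E]) ∧
    (Flex [A, B, C, D, E] → ∃ k, 6 < k ∧ MuL 0 k [A, B, C, D, E] ∧
      eL [A, B, C, D, E] + k = 3 * nL [A, B, C, D, E]) := by
  have a2 : 2 ≤ cd A := hA.2
  have eA := tree_e hA tA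
  have eB := tree_e hB tB
  have eC := tree_e hC tC
  have eD := tree_e hD tD
  have eE := tree_e hE tE
  have hfl : Flex [A, B, C, D, E] ↔ (4 ≤ [cd A, cd B, cd C, cd D, cd E].count 2 ∨
      (3 ≤ [cd A, cd B, cd C, cd D, cd E].count 2 ∧ cd A + cd B + cd C + cd D + cd E ≤ 13)) := by
    constructor
    · rintro ⟨_, _, h⟩
      simp only [List.map_cons, List.map_nil, List.sum_cons, List.sum_nil] at h
      refine h.imp_right fun h => ⟨h.1, by omega⟩
    · intro h
      refine ⟨rfl, ?_, ?_⟩
      · intro X hX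
        simp only [List.mem_cons, List.not_mem_nil, or_false] at hX
        rcases hX with rfl | rfl | rfl | rfl | rfl <;> assumption
      · simp only [List.map_cons, List.map_nil, List.sum_cons, List.sum_nil]
        refine h.imp_right fun h => ⟨h.1, by omega⟩
  have hcount : [cd A, cd B, cd C, cd D, cd E].count 2 = (if cd A = 2 then 1 else 0) +
      (if cd B = 2 then 1 else 0) + (if cd C = 2 then 1 else 0) + (if cd D = 2 then 1 else 0) +
      (if cd E = 2 then 1 else 0) := by
    simp only [List.count_cons, List.count_nil, beq_iff_eq]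
    ring
  have hcnt : ∀ s, eL [A, B, C, D, E] + s = 3 * nL [A, B, C, D, E] ↔
      (cd A - 1) * (cd B * (cd C * (cd D * (cd E * 1)))) + cd A * ((cd B - 1) *
        (cd C * (cd D * (cd E * 1))) + cd B * ((cd C - 1) * (cd D * (cd E * 1)) + cd C * (
        (cd D - 1) * (cd E * 1) + cd D * ((cd E - 1) * 1 + cd E * 0)))) + s =
      3 * (cd A * (cd B * (cd C * (cd D * (cd E * 1))))) := by
    intro s
    simp only [eL_cons, nL_cons, eL_nil, nL_nil]
    have e1 : A.G.edgeSet.ncard = cd A - 1 := by omega
    have e2 : B.G.edgeSet.ncard = cd B - 1 := by omega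
    have e3 : C.G.edgeSet.ncard = cd C - 1 := by omega
    have e4 : D.G.edgeSet.ncard = cd D - 1 := by omega
    have e5 : E.G.edgeSet.ncard = cd E - 1 := by omega
    rw [e1, e2, e3, e4, e5]
    rfl
  by_cases c2 : cd C = 2
  · have ea : cd A = 2 := by omega
    have eb : cd B = 2 := by omega
    by_cases d2 : cd D = 2
    · have hF : Flex [A, B, C, D, E] := by
        rw [hfl, hcount, ea, eb, c2, d2]
        left
        simp
      refine ⟨fun h => absurd hF h, fun _ => ⟨16, by norm_num, five_2222 hA hB hC hD hE, ?_⟩⟩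
      rw [hcnt, ea, eb, c2, d2]
      omega
    · by_cases d3 : cd D = 3
      · by_cases e3 : cd E = 3
        · have hF : Flex [A, B, C, D, E] := by
            rw [hfl, hcount, ea, eb, c2, d3, e3]
            right
            simp
          refine ⟨fun h => absurd hF h, fun _ => ⟨12, by norm_num,
            five_22233 hA hB hC hD hE d3.ge e3.ge, ?_⟩⟩
          rw [hcnt, ea, eb, c2, d3, e3]
        · by_cases e4 : cd E = 4
          · have hF : Flex [A, B, C, D, E] := by
              rw [hfl, hcount, ea, eb, c2, d3, e4]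
              right
              simp
            refine ⟨fun h => absurd hF h, fun _ => ⟨8, by norm_num,
              five_22234 hA hB hC hD hE d3.ge e4.ge, ?_⟩⟩
            rw [hcnt, ea, eb, c2, d3, e4]
          · have e5 : 5 ≤ cd E := by omega
            refine ⟨fun _ => five_22235 hA hB hC hD hE d3.ge e5, fun h => ?_⟩
            rw [hfl, hcount] at h
            exfalso
            split_ifs at h <;> omega
      · have d4 : 4 ≤ cd D := by omega
        refine ⟨fun _ => five_22244 hA hB hC hD hE d4 (by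
          have : 4 ≤ cd E := by omega
          exact this), fun h => ?_⟩
        rw [hfl, hcount] at h
        exfalso
        split_ifs at h <;> omega
  · have c3 : 3 ≤ cd C := by omega
    have d3 : 3 ≤ cd D := by omega
    have e3 : 3 ≤ cd E := by omega
    refine ⟨fun _ => five_22333 hA hB hC hD hE c3 d3 e3, fun h => ?_⟩
    rw [hfl, hcount] at h
    exfalso
    have h1 : ¬ (cd E = 2) := by omega
    have h2 : ¬ (cd D = 2) := by omega
    simp only [h1, h2, c2, if_false] at h
    split_ifs at h <;> omega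

theorem classify (L : List FG) (h5 : 5 ≤ L.length) (hN : ∀ A ∈ L, Nt A) :
    (¬ Flex L → MuL 0 6 L) ∧
    (Flex L → ∃ k, 6 < k ∧ MuL 0 k L ∧ eL L + k = 3 * nL L) := by
  classical
  rcases Nat.lt_or_ge L.length 6 with h6 | h6
  · have hlen : L.length = 5 := by omega
    by_cases hac : ∀ A ∈ L, A.G.IsAcyclic
    · -- sort
      let r : FG → FG → Prop := fun A B => cd A ≤ cd B
      have : Std.Total r := ⟨fun A B => le_total (cd A) (cd B)⟩
      have : IsTrans FG r := ⟨fun A B C h1 h2 => le_trans (α := ℕ) h1 h2⟩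
      have hperm := List.perm_insertionSort r L
      have hpw := List.pairwise_insertionSort r L
      obtain ⟨A, B, C, D, E, he⟩ := len_five (hperm.length_eq.trans hlen)
      rw [he] at hperm hpw
      have hN' : ∀ X ∈ [A, B, C, D, E], Nt X := fun X hX => hN X (hperm.mem_iff.1 hX)
      have hac' : ∀ X ∈ [A, B, C, D, E], X.G.IsAcyclic := fun X hX => hac X (hperm.mem_iff.1 hX)
      simp only [List.pairwise_cons, List.mem_cons, List.not_mem_nil, or_false] at hpw
      obtain ⟨p1, p2, p3, p4, _⟩ := hpw
      have key := five_sorted (hN' A (by simp)) (hN' B (by simp)) (hN' C (by simp))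
        (hN' D (by simp)) (hN' E (by simp)) (p1 B (Or.inl rfl)) (p2 C (Or.inl rfl))
        (p3 D (Or.inl rfl)) (p4 E rfl) (hac' A (by simp)) (hac' B (by simp)) (hac' C (by simp))
        (hac' D (by simp)) (hac' E (by simp))
      refine ⟨fun h => ?_, fun h => ?_⟩
      · exact (key.1 (fun hc => h (hc.perm hperm))).perm hperm.symm
      · obtain ⟨k, hk, h1, h2⟩ := key.2 (h.perm hperm.symm)
        refine ⟨k, hk, h1.perm hperm.symm, ?_⟩
        obtain ⟨h3, h4⟩ := eL_nL_perm hperm
        rw [← h3, ← h4]
        exact h2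
    · refine ⟨fun _ => ?_, fun h => absurd h.2.1 hac⟩
      push Not at hac
      obtain ⟨X, hX, hXa⟩ := hac
      obtain ⟨s, t, rfl⟩ := List.append_of_mem hX
      have hp : (s ++ X :: t).Perm (X :: (s ++ t)) := List.perm_middle
      have hl : (s ++ t).length = 4 := by
        have := hp.length_eq
        rw [List.length_cons] at this
        omega
      obtain ⟨A, B, C, D, he⟩ := len_four hl
      rw [he] at hp
      have hN' : ∀ Y ∈ [X, A, B, C, D], Nt Y := fun Y hY => hN Y (hp.mem_iff.2 hY)
      refine MuL.perm (hp.trans (perm_last A B C D X)) ?_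
      exact five_cycle (hN' A (by simp)) (hN' B (by simp)) (hN' C (by simp))
        (hN' D (by simp)) (hN' X (by simp)) hXa
  · exact ⟨fun _ => rigid_six L h6 hN, fun h => absurd h.1 (by omega)⟩

/-- **Main theorem for lists.** -/
theorem main_list (L : List FG) (h5 : 5 ≤ L.length) (hN : ∀ A ∈ L, Nt A) :
    Pool.Agent.H789R5.genRank 3 (prodL L).G = min (eL L) (3 * nL L - 6) ∧
    (3 * nL L ≤ eL L + 6 ↔ ¬ Flex L) ∧ (6 ≤ nL L) := by
  have hn : 6 ≤ nL L := by
    have : ∀ M : List FG, (∀ A ∈ M, Nt A) → M.length < nL M := by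
      intro M
      induction M with
      | nil => intro _; simp [nL_nil]
      | cons A T ih =>
        intro h
        have h1 := ih fun B hB => h B (List.mem_cons_of_mem _ hB)
        have h2 : 2 ≤ Fintype.card A.V := (h A List.mem_cons_self).2
        rw [nL_cons, List.length_cons]
        nlinarith
    exact (this L hN).trans_le' (by omega)
  obtain ⟨h1, h2⟩ := classify L h5 hN
  have r1 := rank_le (prodL L).G
  have r2 := rank_le' (prodL L).G (by
    have : nL L = Fintype.card (prodL L).V := rfl
    omega)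
  have en : nL L = Fintype.card (prodL L).V := rfl
  have ee : eL L = (prodL L).G.edgeSet.ncard := rfl
  rw [← en] at r2
  rw [← ee] at r1
  by_cases hF : Flex L
  · obtain ⟨k, hk, h3, h4⟩ := h2 hF
    have h5 := mu_rank h3
    rw [← en] at h5
    refine ⟨?_, ?_, hn⟩
    · omega
    · constructor
      · intro h; omega
      · intro h; exact absurd hF h
  · have h3 := mu_rank (h1 hF)
    rw [← en] at h3
    refine ⟨?_, ?_, hn⟩
    · omega
    · constructor
      · intro _; exact hF
      · intro _; omega

end Pool.Agent.J4H92.CP
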