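import Pool.Agent.J4H92.CP.Lin

/-!
# Contraction of a factor of a Cartesian product
-/

set_option autoImplicit false

namespace Pool.Agent.J4H92.CP

open Pool.Agent.H283R2.DR.TA Module SimpleGraph

/-- `f` contracts the graph `H` onto `H'`: the fibres of `f` are connected, each edge of `H'` is the
image of an edge of `H`. -/
structure Contr {U U' : Type*} (H : SimpleGraph U) (H' : SimpleGraph U') (f : U → U') : Prop where
  surj : Function.Surjective f
  conn : ∀ u u', f u = f u' → Relation.ReflTransGen (fun a b => H.Adj a b ∧ f a = f b) u u'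
  cov : ∀ x x', H'.Adj x x' → ∃ u u', f u = x ∧ f u' = x' ∧ H.Adj u u'

section

variable {U U' W : Type*}

/-- parameters: a placement, pins, one further pin direction -/
abbrev Par (U' W : Type*) (j : ℕ) : Type _ :=
  (U' × W → Fin 3 → ℝ) × (U' × W → Fin j → Fin 3 → ℝ) × (W → Fin 3 → ℝ)

/-- the system of the product -/
noncomputable def L0 (U' W : Type*) (j : ℕ) : Par U' W j →ₗ[ℝ]
    ((U' × W → U' × W → Fin 3 → ℝ) × (U' × W → Fin j → Fin 3 → ℝ)) where
  toFun e := (df e.1, e.2.1)
  map_add' e e' := by
    refine Prod.ext ?_ rfl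
    funext u v
    simp only [df, Prod.fst_add, Pi.add_apply]
    abel
  map_smul' c e := by
    refine Prod.ext ?_ rfl
    funext u v
    simp only [df, Prod.smul_fst, Pi.smul_apply, RingHom.id_apply, smul_sub]

/-- the system of a slice -/
noncomputable def LX (U' W : Type*) (j : ℕ) (x : U') : Par U' W j →ₗ[ℝ]
    ((W → W → Fin 3 → ℝ) × (W → Fin (j + 1) → Fin 3 → ℝ)) where
  toFun e := (df fun w => e.1 (x, w), fun w => Fin.cons (e.2.2 w) (e.2.1 (x, w)))
  map_add' e e' := by
    refine Prod.ext ?_ ?_
    · funext u v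
      simp only [df, Prod.fst_add, Pi.add_apply]
      abel
    · funext w i
      refine Fin.cases ?_ (fun i => ?_) i
      · simp
      · simp
  map_smul' c e := by
    refine Prod.ext ?_ ?_
    · funext u v
      simp only [df, Prod.smul_fst, Pi.smul_apply, RingHom.id_apply, smul_sub]
    · funext w i
      refine Fin.cases ?_ (fun i => ?_) i
      · simp
      · simp

variable [Finite U] [Finite U'] [Finite W]

/-- a common choice of the parameters -/
theorem exists_par {H' : SimpleGraph U'} {Y : SimpleGraph W} {j k : ℕ}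
    (hY : Mu (j + 1) 0 Y) (hG : Mu j k (H' □ Y)) :
    ∃ e : Par U' W j, finrank ℝ (Sol (H' □ Y) (df e.1) e.2.1) ≤ k ∧
      ∀ x, finrank ℝ (Sol Y (df fun w => e.1 (x, w))
        (fun w => Fin.cons (e.2.2 w) (e.2.1 (x, w)) : W → Fin (j + 1) → Fin 3 → ℝ)) ≤ 0 := by
  obtain ⟨e, he⟩ := good_family (E := Par U' W j) (ι := Option U')
    (fun o e => match o with
      | none => finrank ℝ (Sol (H' □ Y) (L0 U' W j e).1 (L0 U' W j e).2) ≤ k
      | some x => finrank ℝ (Sol Y (LX U' W j x e).1 (LX U' W j x e).2) ≤ 0)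
    (by
      rintro (_ | x)
      · exact good_sol _ _ _
      · exact good_sol _ _ _)
    (by
      rintro (_ | x)
      · obtain ⟨p, d, h⟩ := hG
        exact ⟨(p, d, 0), h⟩
      · obtain ⟨p, d, h⟩ := hY
        refine ⟨(fun v => p v.2, fun v i => d v.2 i.succ, fun w => d w 0), ?_⟩
        show finrank ℝ (Sol Y (df fun w => p w) (fun w => Fin.cons (d w 0) (fun i => d w i.succ) :
          W → Fin (j + 1) → Fin 3 → ℝ)) ≤ 0
        have : (fun w => Fin.cons (d w 0) (fun i => d w i.succ) : W → Fin (j + 1) → Fin 3 → ℝ) =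
            d := by
          funext w i
          refine Fin.cases ?_ (fun i => ?_) i
          · simp
          · simp
        rw [this]
        exact h)
  exact ⟨e, he none, fun x => he (some x)⟩

theorem eq_zero_of_finrank_le {M : Type*} [AddCommGroup M] [Module ℝ M] {S : Submodule ℝ M}
    [FiniteDimensional ℝ M] (h : finrank ℝ S ≤ 0) {m : M} (hm : m ∈ S) : m = 0 := by
  have h0 : finrank ℝ S = 0 := Nat.le_zero.1 h
  have : S = ⊥ := Submodule.finrank_eq_zero.1 h0
  rw [this] at hm
  exact (Submodule.mem_bot ℝ).1 hm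

/-- **Contraction of a factor.** -/
theorem Mu.contract {H : SimpleGraph U} {H' : SimpleGraph U'} {Y : SimpleGraph W} {f : U → U'}
    {j k : ℕ} (hf : Contr H H' f) (hY : Mu (j + 1) 0 Y) (hG : Mu j k (H' □ Y)) :
    Mu j k (H □ Y) := by
  classical
  obtain ⟨⟨p, δ, d⟩, h0, hx⟩ := exists_par hY hG
  simp only at h0 hx
  obtain ⟨n, ⟨σe⟩⟩ := Finite.exists_equiv_fin U
  set σ : U → ℝ := fun u => ((σe u : ℕ) : ℝ) with hσ
  have hσi : Function.Injective σ := by
    intro a b hab
    exact σe.injective (Fin.ext (Nat.cast_injective hab))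
  obtain ⟨g, hg⟩ := hf.surj.hasRightInverse
  let c : U × W → U' × W := fun v => (f v.1, v.2)
  refine mu_of_lim c p (fun v => σ v.1 • d v.2) (fun v => δ (f v.1, v.2)) ?_
  set S := Sol (H □ Y) (lim c p (fun v => σ v.1 • d v.2)) (fun v => δ (f v.1, v.2)) with hS
  -- motions are constant on the fibres
  have hY1 : ∀ m ∈ S, ∀ u u', H.Adj u u' → f u = f u' → ∀ w, m (u, w) = m (u', w) := by
    intro m hm u u' huu hff w
    rw [hS, mem_sol] at hm
    obtain ⟨hm1, hm2⟩ := hm
    have h1 : (fun w => m (u, w) - m (u', w)) ∈ Sol Y (df fun w => p (f u, w))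
        (fun w => Fin.cons (d w) (δ (f u, w)) : W → Fin (j + 1) → Fin 3 → ℝ) := by
      rw [mem_sol]
      refine ⟨fun a b hab => ?_, fun a i => ?_⟩
      · have ha := hm1 (u, a) (u, b) (Or.inr ⟨hab, rfl⟩)
        have hb := hm1 (u', a) (u', b) (Or.inr ⟨hab, rfl⟩)
        have hne : ∀ z : U, c (z, a) ≠ c (z, b) := by
          intro z hc
          exact hab.ne (Prod.ext_iff.1 hc).2
        rw [lim_ne _ _ (hne u)] at ha
        rw [lim_ne _ _ (hne u')] at hb
        simp only [c] at ha hb
        rw [← hff] at hb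
        show (p (f u, a) - p (f u, b)) ⬝ᵥ _ = 0
        have e : m (u, a) - m (u', a) - (m (u, b) - m (u', b)) =
          (m (u, a) - m (u, b)) - (m (u', a) - m (u', b)) := by abel
        simp only [e]
        rw [dotProduct_sub, ha, hb, sub_zero]
      · refine Fin.cases ?_ (fun i => ?_) i
        · have h3 := hm1 (u, a) (u', a) (Or.inl ⟨huu, rfl⟩)
          have heq : c (u, a) = c (u', a) := by simp only [c, hff]
          rw [lim_eq _ _ heq] at h3
          simp only [Fin.cons_zero]
          rw [← sub_smul, smul_dotProduct, smul_eq_mul, mul_eq_zero] at h3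
          rcases h3 with h3 | h3
          · exact absurd (hσi (sub_eq_zero.1 h3)) huu.ne
          · exact h3
        · simp only [Fin.cons_succ]
          have h4 := hm2 (u, a) i
          have h5 := hm2 (u', a) i
          simp only at h4 h5
          rw [← hff] at h5
          rw [dotProduct_sub, h4, h5, sub_zero]
    have h2 := eq_zero_of_finrank_le (hx (f u)) h1
    have h3 := congrFun h2 w
    exact sub_eq_zero.1 h3
  have hY2 : ∀ m ∈ S, ∀ u u', f u = f u' → ∀ w, m (u, w) = m (u', w) := by
    intro m hm u u' hff w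
    have := hf.conn u u' hff
    induction this with
    | refl => rfl
    | tail h1 h2 ih =>
      rename_i b c
      have hub : f u = f b := by rw [hff, ← h2.2]
      rw [ih hub]
      exact hY1 m hm b c h2.1 h2.2 w
  -- restriction to a section
  let R : (U × W → Fin 3 → ℝ) →ₗ[ℝ] (U' × W → Fin 3 → ℝ) :=
    LinearMap.funLeft ℝ (Fin 3 → ℝ) (fun v : U' × W => (g v.1, v.2))
  have hR : ∀ m v, R m v = m (g v.1, v.2) := fun m v => rfl
  have hRS : ∀ m ∈ S, R m ∈ Sol (H' □ Y) (df p) δ := by
    intro m hm
    have hm' := hm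
    rw [hS, mem_sol] at hm
    obtain ⟨hm1, hm2⟩ := hm
    rw [mem_sol]
    refine ⟨?_, ?_⟩
    · rintro ⟨x, a⟩ ⟨y, b⟩ hab
      rw [hR, hR]
      simp only
      rcases hab with ⟨h1, h2⟩ | ⟨h1, h2⟩
      · simp only at h1 h2
        subst h2
        obtain ⟨u, u', hu, hu', huu⟩ := hf.cov x y h1
        have h3 := hm1 (u, a) (u', a) (Or.inl ⟨huu, rfl⟩)
        have hne : c (u, a) ≠ c (u', a) := by
          intro hc
          simp only [c] at hc
          rw [hu, hu'] at hc
          exact h1.ne (Prod.ext_iff.1 hc).1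
        rw [lim_ne _ _ hne] at h3
        simp only [c] at h3
        rw [hu, hu', hY2 m hm' u (g x) (by rw [hu, hg]), hY2 m hm' u' (g y) (by rw [hu', hg])] at h3
        exact h3
      · simp only at h1 h2
        subst h2
        have h3 := hm1 (g x, a) (g x, b) (Or.inr ⟨h1, rfl⟩)
        have hne : c (g x, a) ≠ c (g x, b) := by
          intro hc
          exact h1.ne (Prod.ext_iff.1 hc).2
        rw [lim_ne _ _ hne] at h3
        simp only [c, hg x] at h3
        exact h3
    · rintro ⟨x, a⟩ i
      rw [hR]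
      have := hm2 (g x, a) i
      simp only [hg x] at this
      exact this
  have hinj : Function.Injective ((R.domRestrict S).codRestrict (Sol (H' □ Y) (df p) δ)
      (fun m => hRS m m.2)) := by
    rw [injective_iff_map_eq_zero]
    rintro ⟨m, hm⟩ h
    rw [Subtype.ext_iff] at h
    have h1 : R m = 0 := h
    rw [Subtype.ext_iff]
    show m = 0
    funext v
    obtain ⟨u, w⟩ := v
    have h2 := congrFun h1 (f u, w)
    rw [hR] at h2
    simp only at h2
    rw [hY2 m hm u (g (f u)) (by rw [hg]), h2]
    rfl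
  exact (LinearMap.finrank_le_finrank_of_injective hinj).trans h0

end

end Pool.Agent.J4H92.CP
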