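import Pool.Agent.J4H92.CP.Main
import Pool.Agent.TH349.Rig.Count

/-!
# Numbers of edges, the generic rank
-/

set_option autoImplicit false

namespace Pool.Agent.J4H92.CP

open SimpleGraph Pool.Agent.H789R5 Pool.Agent.H283R2.DR

theorem ncard_boxProd {V W : Type} [Fintype V] [Fintype W] (G : SimpleGraph V)
    (H : SimpleGraph W) : (SimpleGraph.boxProd G H).edgeSet.ncard =
      G.edgeSet.ncard * Fintype.card W + Fintype.card V * H.edgeSet.ncard := by
  classical
  have key : ∀ {α : Type} [Fintype α] (K : SimpleGraph α), 2 * K.edgeSet.ncard =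
      ∑ v, K.degree v := by
    intro α _ K
    rw [sum_degrees_eq_twice_card_edges, Set.ncard_eq_toFinset_card']
    rfl
  have h1 : 2 * (SimpleGraph.boxProd G H).edgeSet.ncard =
      ∑ v, ∑ w, (G.degree v + H.degree w) := by
    rw [key (SimpleGraph.boxProd G H), Fintype.sum_prod_type]
    refine Finset.sum_congr rfl fun v _ => Finset.sum_congr rfl fun w _ => ?_
    convert degree_boxProd (v, w)
  simp only [Finset.sum_add_distrib, Finset.sum_const, Finset.card_univ, smul_eq_mul] at h1
  rw [← Finset.mul_sum, ← key G, ← key H] at h1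
  nlinarith [h1]

/-- number of edges of the product -/
noncomputable def eL (L : List FG) : ℕ := (prodL L).G.edgeSet.ncard

/-- number of vertices of the product -/
def nL (L : List FG) : ℕ := Fintype.card (prodL L).V

theorem nL_nil : nL [] = 1 := rfl

theorem nL_cons (A : FG) (L : List FG) : nL (A :: L) = Fintype.card A.V * nL L :=
  Fintype.card_prod _ _

theorem eL_nil : eL [] = 0 := by
  show (⊥ : SimpleGraph Unit).edgeSet.ncard = 0
  simp

theorem eL_cons (A : FG) (L : List FG) :
    eL (A :: L) = A.G.edgeSet.ncard * nL L + Fintype.card A.V * eL L := ncard_boxProd _ _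

theorem eL_nL_perm {L L' : List FG} (h : L.Perm L') : eL L = eL L' ∧ nL L = nL L' := by
  classical
  obtain ⟨e⟩ := perm_iso h
  refine ⟨?_, Fintype.card_congr e.toEquiv⟩
  have := e.card_edgeFinset_eq
  unfold eL
  rw [Set.ncard_eq_toFinset_card', Set.ncard_eq_toFinset_card']
  exact this

theorem tree_count {A : FG} (hA : A.G.IsTree) : A.G.edgeSet.ncard + 1 = Fintype.card A.V := by
  classical
  rw [Set.ncard_eq_toFinset_card']
  exact hA.card_edgeFinset

/-! ### the generic rank -/

theorem mu_rank {V : Type} [Fintype V] {G : SimpleGraph V} {k : ℕ} (h : Mu 0 k G) :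
    3 * Fintype.card V ≤ genRank 3 G + k := by
  obtain ⟨p, hp⟩ := exists_mg V 3
  have h1 := genRank_add hp G
  obtain ⟨p', d, h⟩ := h
  have h2 := hp.min G p'
  have h3 : mo G p' ≤ k := by
    refine le_trans ?_ h
    unfold mo
    refine Submodule.finrank_mono ?_
    intro q hq
    rw [mem_mot] at hq
    exact ⟨fun u v huv => hq u v huv, fun v i => i.elim0⟩
  omega

theorem rank_le {V : Type} [Fintype V] (G : SimpleGraph V) : genRank 3 G ≤ G.edgeSet.ncard := by
  obtain ⟨p, hp⟩ := exists_mg V 3
  have h1 := genRank_add hp G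
  have h2 := Pool.Agent.TH349.Rig.rank_le_edges G p
  omega

theorem rank_le' {V : Type} [Fintype V] (G : SimpleGraph V) (h3 : 3 ≤ Fintype.card V) :
    genRank 3 G ≤ 3 * Fintype.card V - 6 := by
  obtain ⟨p, hp⟩ := exists_mg V 3
  have h1 := genRank_add hp G
  have h2 := Pool.Agent.TH349.Rig.six_le hp h3 G
  omega

end Pool.Agent.J4H92.CP
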