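import Pool.Agent.J4H92.CP.Classify
import Pool.Agent.TH409.RG.Family

/-!
# Products of families
-/

set_option autoImplicit false

namespace Pool.Agent.J4H92.CP

open SimpleGraph Pool.Agent.H789R5 Pool.Agent.H283R2.DR

/-- the Cartesian product of a family of graphs -/
def famProd {ι : Type} {V : ι → Type} (G : ∀ i, SimpleGraph (V i)) : SimpleGraph (∀ i, V i) where
  Adj x y := ∃ i, (G i).Adj (x i) (y i) ∧ ∀ j, j ≠ i → x j = y j
  symm := ⟨fun _ _ ⟨i, h1, h2⟩ => ⟨i, h1.symm, fun j hj => (h2 j hj).symm⟩⟩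
  loopless := ⟨fun _ ⟨_, h1, _⟩ => h1.ne rfl⟩

/-- splitting the first factor off -/
def famSucc {n : ℕ} {V : Fin (n + 1) → Type} (G : ∀ i, SimpleGraph (V i)) :
    famProd G ≃g SimpleGraph.boxProd (G 0) (famProd fun i : Fin n => G i.succ) where
  toFun x := (x 0, fun i => x i.succ)
  invFun p := Fin.cons p.1 p.2
  left_inv x := by
    funext i
    refine Fin.cases ?_ (fun i => ?_) i
    · simp
    · simp
  right_inv p := by
    simp
  map_rel_iff' := by
    intro x y
    constructor
    · rintro (⟨h1, h2⟩ | ⟨⟨i, h1, h2⟩, h3⟩)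
      · refine ⟨0, h1, fun j hj => ?_⟩
        obtain ⟨k, rfl⟩ := Fin.exists_succ_eq.2 hj
        exact congrFun h2 k
      · refine ⟨i.succ, h1, fun j hj => ?_⟩
        rcases Fin.eq_zero_or_eq_succ j with rfl | ⟨k, rfl⟩
        · exact h3
        · exact h2 k (fun h => hj (by rw [h]))
    · rintro ⟨i, h1, h2⟩
      rcases Fin.eq_zero_or_eq_succ i with rfl | ⟨k, rfl⟩
      · refine Or.inl ⟨h1, ?_⟩
        funext j
        exact h2 j.succ (Fin.succ_ne_zero j)
      · refine Or.inr ⟨⟨k, h1, fun j hj => h2 j.succ (fun h => hj (Fin.succ_injective _ h))⟩, ?_⟩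
        exact h2 0 (Fin.succ_ne_zero k).symm

/-- the list of a family -/
def famL {n : ℕ} {V : Fin n → Type} [∀ i, Fintype (V i)] (G : ∀ i, SimpleGraph (V i)) : List FG :=
  List.ofFn fun i => (⟨V i, inferInstance, G i⟩ : FG)

theorem fam_iso : ∀ (n : ℕ) (V : Fin n → Type) [∀ i, Fintype (V i)] (G : ∀ i, SimpleGraph (V i)),
    Nonempty (famProd G ≃g (prodL (famL G)).G) := by
  intro n
  induction n with
  | zero =>
    intro V _ G
    have e : famL G = [] := List.ofFn_zero
    rw [e]
    refine ⟨⟨⟨fun _ => (), fun _ i => i.elim0, fun x => funext fun i => i.elim0, fun _ => rfl⟩, ?_⟩⟩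
    intro x y
    constructor
    · intro h
      exact absurd h (by simp [prodL])
    · rintro ⟨i, _⟩
      exact i.elim0
  | succ n ih =>
    intro V _ G
    obtain ⟨e⟩ := ih (fun i => V i.succ) (fun i => G i.succ)
    have e2 : famL G = (⟨V 0, inferInstance, G 0⟩ : FG) :: famL (fun i : Fin n => G i.succ) :=
      List.ofFn_succ
    rw [e2]
    exact ⟨(famSucc G).trans (bpc (G 0) e)⟩

/-- reindexing -/
def famRe {ι κ : Type} (e : ι ≃ κ) {V : ι → Type} (G : ∀ i, SimpleGraph (V i)) :
    famProd G ≃g famProd (fun k : κ => G (e.symm k)) where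
  toEquiv := Equiv.piCongrLeft' V e
  map_rel_iff' := by
    intro x y
    constructor
    · rintro ⟨k, h1, h2⟩
      refine ⟨e.symm k, h1, fun j hj => ?_⟩
      have := h2 (e j) (fun h => hj (by rw [← h, Equiv.symm_apply_apply]))
      simp only [Equiv.piCongrLeft'_apply] at this
      have key : ∀ i, i = j → x i = y i → x j = y j := by
        rintro _ rfl h
        exact h
      exact key _ (e.symm_apply_apply j) this
    · rintro ⟨i, h1, h2⟩
      refine ⟨e i, ?_, fun j hj => ?_⟩
      · simp only [Equiv.piCongrLeft'_apply]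
        have key : ∀ j, i = j → (G i).Adj (x i) (y i) → (G j).Adj (x j) (y j) := by
          rintro _ rfl h
          exact h
        exact key _ (e.symm_apply_apply i).symm h1
      · simp only [Equiv.piCongrLeft'_apply]
        exact h2 _ (fun h => hj (by rw [← h, Equiv.apply_symm_apply]))

theorem count_ofFn {n : ℕ} (f : Fin n → ℕ) (a : ℕ) :
    (List.ofFn f).count a = ∑ i, if f i = a then 1 else 0 := by
  induction n with
  | zero => simp
  | succ n ih =>
    rw [List.ofFn_succ, List.count_cons, ih, Fin.sum_univ_succ]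
    simp only [beq_iff_eq]
    ring

/-- **The rank formula and the classification**, for a graph isomorphic to a product of a list. -/
theorem main_iso {V : Type} [Fintype V] (K : SimpleGraph V) (L : List FG)
    (e : K ≃g (prodL L).G) (h5 : 5 ≤ L.length) (hN : ∀ A ∈ L, Nt A) :
    genRank 3 K = min K.edgeSet.ncard (3 * Fintype.card V - 6) ∧
    (GenRigid 3 K ↔ 3 * Fintype.card V ≤ K.edgeSet.ncard + 6) ∧ (GenRigid 3 K ↔ ¬ Flex L) := by
  classical
  obtain ⟨h0, h1, hn⟩ := main_list L h5 hN
  have ev : Fintype.card V = nL L := Fintype.card_congr e.toEquiv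
  have ee : K.edgeSet.ncard = eL L := by
    unfold eL
    rw [Set.ncard_eq_toFinset_card', Set.ncard_eq_toFinset_card']
    exact e.card_edgeFinset_eq
  have hr : genRank 3 K = min K.edgeSet.ncard (3 * Fintype.card V - 6) := by
    obtain ⟨c1, c2⟩ := classify L h5 hN
    have r1 := rank_le K
    have r2 := rank_le' K (by omega)
    by_cases hF : Flex L
    · obtain ⟨k, hk, h3, h4⟩ := c2 hF
      have h5 := mu_rank (Mu.of_iso e h3)
      omega
    · have h3 := mu_rank (Mu.of_iso e (c1 hF))
      omega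
  have hg := Pool.Agent.TH409.RG.rigid_iff_of_rank (by omega) hr
  refine ⟨hr, hg, hg.trans ?_⟩
  rw [ev, ee]
  exact h1

theorem main_fam {ι : Type} [Fintype ι] {V : ι → Type} [∀ i, Fintype (V i)]
    [Fintype (∀ i, V i)] (G : ∀ i, SimpleGraph (V i)) (hG : ∀ i, (G i).Connected)
    (hV : ∀ i, 2 ≤ Fintype.card (V i)) (h5 : 5 ≤ Fintype.card ι) :
    genRank 3 (famProd G) = min (famProd G).edgeSet.ncard (3 * Fintype.card (∀ i, V i) - 6) ∧
    (GenRigid 3 (famProd G) ↔
      3 * Fintype.card (∀ i, V i) ≤ (famProd G).edgeSet.ncard + 6) ∧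
    (GenRigid 3 (famProd G) ↔ ¬ (Fintype.card ι = 5 ∧ (∀ i, (G i).IsTree) ∧
      (4 ≤ {i | Fintype.card (V i) = 2}.ncard ∨
        (3 ≤ {i | Fintype.card (V i) = 2}.ncard ∧ ∑ i, Fintype.card (V i) ≤ 13)))) := by
  classical
  let e : ι ≃ Fin (Fintype.card ι) := Fintype.equivFin ι
  obtain ⟨f⟩ := fam_iso (Fintype.card ι) (fun k => V (e.symm k)) (fun k => G (e.symm k))
  have hlen : (famL fun k => G (e.symm k)).length = Fintype.card ι := List.length_ofFn
  have hmem : ∀ A ∈ (famL fun k => G (e.symm k)), ∃ i, A = ⟨V i, inferInstance, G i⟩ := by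
    intro A hA
    obtain ⟨k, hk⟩ := (List.mem_ofFn' _ _).1 hA
    exact ⟨e.symm k, hk.symm⟩
  have hN : ∀ A ∈ (famL fun k => G (e.symm k)), Nt A := by
    intro A hA
    obtain ⟨i, rfl⟩ := hmem A hA
    exact ⟨hG i, hV i⟩
  obtain ⟨m1, m2, m3⟩ := main_iso (famProd G) _ ((famRe e G).trans f) (by rw [hlen]; exact h5) hN
  refine ⟨m1, m2, m3.trans (not_congr ?_)⟩
  have hmap : (famL fun k => G (e.symm k)).map cd =
      List.ofFn fun k => Fintype.card (V (e.symm k)) := by
    unfold famL
    rw [List.map_ofFn]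
    rfl
  have hc : ((famL fun k => G (e.symm k)).map cd).count 2 =
      {i | Fintype.card (V i) = 2}.ncard := by
    rw [hmap, count_ofFn, Equiv.sum_comp e.symm (fun i => if Fintype.card (V i) = 2 then 1 else 0),
      Set.ncard_eq_toFinset_card', Finset.sum_boole]
    simp
  have hs : ((famL fun k => G (e.symm k)).map cd).sum = ∑ i, Fintype.card (V i) := by
    rw [hmap, List.sum_ofFn]
    exact Equiv.sum_comp e.symm (fun i => Fintype.card (V i))
  unfold Flex
  rw [hlen, hc, hs]
  refine and_congr Iff.rfl (and_congr ?_ Iff.rfl)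
  constructor
  · intro h i
    refine ⟨hG i, ?_⟩
    have : (⟨V i, inferInstance, G i⟩ : FG) ∈ famL fun k => G (e.symm k) := by
      refine (List.mem_ofFn' _ _).2 ⟨e i, ?_⟩
      have key : ∀ j, j = i → (⟨V j, inferInstance, G j⟩ : FG) = ⟨V i, inferInstance, G i⟩ := by
        rintro _ rfl
        rfl
      exact key _ (e.symm_apply_apply i)
    exact h _ this
  · intro h A hA
    obtain ⟨i, rfl⟩ := hmem A hA
    exact (h i).isAcyclic

end Pool.Agent.J4H92.CP
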