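import Mathlib
import Pool.Agent.J4H92.CP.Family

/-!
# Generic rigidity in space of Cartesian products with at least five factors

The Cartesian product of at least five connected finite graphs with at least two vertices each has
the generic rank `min (|E|, 3 n - 6)` in `ℝ³`. It is generically rigid in `ℝ³` unless it has too few
edges, which happens only for five trees of which four are single edges, or three are single edges
and the two others have together at most seven vertices. In particular all such products with at
least six factors are generically rigid, e.g. the hypercubes of dimension at least six.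
-/

set_option autoImplicit false

namespace Pool.Agent.J4H92.CP.Five

open Pool.Agent.H789R5 Pool.Agent.H283R2.DR

/-- The Cartesian product of a family of graphs: two elements of the product of the vertex sets are
adjacent if they differ in exactly one coordinate and are adjacent there. -/
def cartesianProduct {ι : Type} {V : ι → Type} (G : ∀ i, SimpleGraph (V i)) :
    SimpleGraph (∀ i, V i) where
  Adj x y := ∃ i, (G i).Adj (x i) (y i) ∧ ∀ j, j ≠ i → x j = y j
  symm := ⟨fun _ _ ⟨i, h1, h2⟩ => ⟨i, h1.symm, fun j hj => (h2 j hj).symm⟩⟩
  loopless := ⟨fun _ ⟨_, h1, _⟩ => h1.ne rfl⟩

/-- Let `G i`, for `i` in a finite set with at least five elements, be connected finite graphs with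
at least two vertices each, and let `n` and `|E|` be the numbers of vertices and edges of their
Cartesian product. (1) The generic rank of the product in `ℝ³` is the minimum of `|E|` and `3 n - 6`.
(2) The product is generically rigid in `ℝ³` if and only if `3 n ≤ |E| + 6`. (3) It is generically
rigid in `ℝ³` unless there are exactly five factors, all of them are trees, and either at least four
of them have two vertices, or at least three of them have two vertices and the numbers of vertices
of the five trees add up to at most 13. -/
theorem result (ι : Type) [Fintype ι] [DecidableEq ι] (V : ι → Type) [∀ i, Fintype (V i)]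
    (G : ∀ i, SimpleGraph (V i)) (hG : ∀ i, (G i).Connected)
    (hV : ∀ i, 2 ≤ Fintype.card (V i)) (h5 : 5 ≤ Fintype.card ι) :
    genRank 3 (cartesianProduct G) =
      min (cartesianProduct G).edgeSet.ncard (3 * Fintype.card (∀ i, V i) - 6) ∧
    (GenRigid 3 (cartesianProduct G) ↔
      3 * Fintype.card (∀ i, V i) ≤ (cartesianProduct G).edgeSet.ncard + 6) ∧
    (GenRigid 3 (cartesianProduct G) ↔ ¬ (Fintype.card ι = 5 ∧ (∀ i, (G i).IsTree) ∧
      (4 ≤ {i | Fintype.card (V i) = 2}.ncard ∨
        (3 ≤ {i | Fintype.card (V i) = 2}.ncard ∧ ∑ i, Fintype.card (V i) ≤ 13)))) :=
  Pool.Agent.J4H92.CP.main_fam G hG hV h5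

end Pool.Agent.J4H92.CP.Five
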