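import Pool.Agent.J4H92.CP.Iso
import Pool.Agent.TH409.RG.Family

/-!
# Contractions of connected graphs
-/

set_option autoImplicit false

namespace Pool.Agent.J4H92.CP

open SimpleGraph Relation

variable {U U' : Type*}

theorem rmono {α : Type*} {r p : α → α → Prop} {a b : α} (hab : ReflTransGen r a b)
    (h : ∀ a b, r a b → p a b) : ReflTransGen p a b := by
  induction hab with
  | refl => exact ReflTransGen.refl
  | tail _ h2 ih => exact ih.tail (h _ _ h2)

/-- the relation: adjacent, in `S`, same label -/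
def Rl (H : SimpleGraph U) (S : Set U) (f : U → U') (a b : U) : Prop :=
  H.Adj a b ∧ a ∈ S ∧ b ∈ S ∧ f a = f b

theorem Rl.symm {H : SimpleGraph U} {S : Set U} {f : U → U'} {a b : U} (h : Rl H S f a b) :
    Rl H S f b a := ⟨h.1.symm, h.2.2.1, h.2.1, h.2.2.2.symm⟩

theorem rl_symm {H : SimpleGraph U} {S : Set U} {f : U → U'} {a b : U}
    (h : ReflTransGen (Rl H S f) a b) : ReflTransGen (Rl H S f) b a := by
  induction h with
  | refl => exact ReflTransGen.refl
  | tail _ h2 ih => exact ReflTransGen.head h2.symm ih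

/-- A labelling of a part with connected fibres extends to the whole connected graph. -/
theorem grow [Finite U] {H : SimpleGraph U} (hH : H.Connected) (n : ℕ) :
    ∀ (S : Set U) (f : U → U'), S.Nonempty → Sᶜ.ncard ≤ n →
      (∀ u ∈ S, ∀ u' ∈ S, f u = f u' → ReflTransGen (Rl H S f) u u') →
      ∃ g : U → U', (∀ u ∈ S, g u = f u) ∧
        ∀ u u', g u = g u' → ReflTransGen (fun a b => H.Adj a b ∧ g a = g b) u u' := by
  classical
  induction n with
  | zero =>
    intro S f _ hc h
    have hS : S = Set.univ := by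
      have h1 : Sᶜ.ncard = 0 := Nat.le_zero.1 hc
      rw [Set.ncard_eq_zero (Set.toFinite _)] at h1
      exact Set.compl_empty_iff.1 h1
    subst hS
    refine ⟨f, fun _ _ => rfl, fun u u' huu => ?_⟩
    exact rmono (h u trivial u' trivial huu) (fun a b hab => ⟨hab.1, hab.2.2.2⟩)
  | succ n ih =>
    intro S f hne hc h
    by_cases hS : S = Set.univ
    · subst hS
      refine ⟨f, fun _ _ => rfl, fun u u' huu => ?_⟩
      exact rmono (h u trivial u' trivial huu) (fun a b hab => ⟨hab.1, hab.2.2.2⟩)
    · obtain ⟨y, hy⟩ := (Set.ne_univ_iff_exists_notMem S).1 hS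
      obtain ⟨x, hx⟩ := hne
      obtain ⟨w⟩ := hH.preconnected x y
      obtain ⟨d, -, hd1, hd2⟩ := w.exists_boundary_dart S hx hy
      set a := d.fst with ha
      set b := d.snd with hb
      have hab : H.Adj a b := d.adj
      have hneS : ∀ z ∈ S, z ≠ b := fun z hz hzb => hd2 (hzb ▸ hz)
      have hmono : ∀ u v, Rl H S f u v → Rl H (insert b S) (Function.update f b (f a)) u v := by
        rintro u v ⟨h1, h2, h3, h4⟩
        refine ⟨h1, Set.mem_insert_of_mem _ h2, Set.mem_insert_of_mem _ h3, ?_⟩
        rw [Function.update_of_ne (hneS u h2), Function.update_of_ne (hneS v h3), h4]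
      have hba : Rl H (insert b S) (Function.update f b (f a)) b a := by
        refine ⟨hab.symm, Set.mem_insert _ _, Set.mem_insert_of_mem _ hd1, ?_⟩
        rw [Function.update_self, Function.update_of_ne (hneS a hd1)]
      obtain ⟨g, hg1, hg2⟩ := ih (insert b S) (Function.update f b (f a))
        ⟨b, Set.mem_insert _ _⟩ (by
          have h1 : (insert b S)ᶜ = Sᶜ \ {b} := by
            ext z
            simp only [Set.mem_compl_iff, Set.mem_insert_iff, not_or, Set.mem_sdiff,
              Set.mem_singleton_iff]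
            tauto
          rw [h1, Set.ncard_sdiff_singleton_of_mem (by exact hd2)]
          omega)
        (by
          intro u hu u' hu' huu
          rcases Set.mem_insert_iff.1 hu with rfl | hu
          · rcases Set.mem_insert_iff.1 hu' with rfl | hu'
            · exact ReflTransGen.refl
            · rw [Function.update_self, Function.update_of_ne (hneS u' hu')] at huu
              exact ReflTransGen.head hba (rmono (h a hd1 u' hu' huu) hmono)
          · rcases Set.mem_insert_iff.1 hu' with rfl | hu'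
            · rw [Function.update_self, Function.update_of_ne (hneS u hu)] at huu
              exact (rmono (h u hu a hd1 huu) hmono).trans
                (ReflTransGen.single hba.symm)
            · rw [Function.update_of_ne (hneS u hu), Function.update_of_ne (hneS u' hu')] at huu
              exact rmono (h u hu u' hu' huu) hmono)
      refine ⟨g, fun u hu => ?_, hg2⟩
      rw [hg1 u (Set.mem_insert_of_mem _ hu), Function.update_of_ne (hneS u hu)]

/-- The tree on `Fin m` in which `i > 0` is joined to `a i`. -/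
def Ta (m : ℕ) (a : ℕ → ℕ) : SimpleGraph (Fin m) where
  Adj x y := x ≠ y ∧ ((0 < (y : ℕ) ∧ (x : ℕ) = a y) ∨ (0 < (x : ℕ) ∧ (y : ℕ) = a x))
  symm := ⟨fun _ _ h => ⟨h.1.symm, h.2.symm⟩⟩
  loopless := ⟨fun _ h => h.1 rfl⟩

theorem contr_tree {U : Type} [Fintype U] {H : SimpleGraph U} (hH : H.Connected) {m : ℕ}
    (hm : 0 < m) (hmU : m ≤ Fintype.card U) :
    ∃ a : ℕ → ℕ, (∀ i < m, 0 < i → a i < i) ∧ ∃ g : U → Fin m, Contr H (Ta m a) g := by
  classical
  obtain ⟨f, hf1, hf2⟩ := Pool.Agent.TH409.RG.exists_enum hH m hm hmU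
  have hpar : ∀ i, ∃ j, i < m → 0 < i → j < i ∧ H.Adj (f i) (f j) := by
    intro i
    by_cases hi : i < m ∧ 0 < i
    · obtain ⟨j, hj, hjadj⟩ := hf2 i hi.1 hi.2
      exact ⟨j, fun _ _ => ⟨hj, hjadj⟩⟩
    · exact ⟨0, fun h1 h2 => absurd ⟨h1, h2⟩ hi⟩
  choose a ha using hpar
  refine ⟨a, fun i hi hi0 => (ha i hi hi0).1, ?_⟩
  -- labels
  have hlab : ∀ u, ∃ l : Fin m, ∀ i < m, f i = u → (l : ℕ) = i := by
    intro u
    by_cases hu : ∃ i < m, f i = u
    · obtain ⟨i, hi, hiu⟩ := hu
      exact ⟨⟨i, hi⟩, fun j hj hju => hf1 i hi j hj (by rw [hiu, hju])⟩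
    · push Not at hu
      exact ⟨⟨0, hm⟩, fun i hi hiu => absurd hiu (hu i hi)⟩
  choose l hl using hlab
  obtain ⟨g, hg1, hg2⟩ := grow hH _ {u | ∃ i < m, f i = u} l ⟨f 0, 0, hm, rfl⟩ le_rfl (by
    rintro u ⟨i, hi, rfl⟩ u' ⟨j, hj, rfl⟩ huu
    have h1 := hl (f i) i hi rfl
    have h2 := hl (f j) j hj rfl
    have : i = j := by rw [← h1, ← h2, huu]
    subst this
    exact ReflTransGen.refl)
  have hgf : ∀ i (hi : i < m), g (f i) = ⟨i, hi⟩ := by
    intro i hi
    rw [hg1 (f i) ⟨i, hi, rfl⟩]
    exact Fin.ext (hl (f i) i hi rfl)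
  refine ⟨g, ⟨fun x => ⟨f x, hgf x x.2⟩, hg2, ?_⟩⟩
  rintro x y ⟨_, ⟨h0, h1⟩ | ⟨h0, h1⟩⟩
  · refine ⟨f x, f y, hgf x x.2, hgf y y.2, ?_⟩
    have := (ha y y.2 h0).2
    rw [← h1] at this
    exact this.symm
  · refine ⟨f x, f y, hgf x x.2, hgf y y.2, ?_⟩
    have := (ha x x.2 h0).2
    rw [← h1] at this
    exact this

theorem walk_chain {H : SimpleGraph U} {a b : U} (p : H.Walk a b) :
    ∀ z ∈ p.support, ReflTransGen (fun x y => H.Adj x y ∧ x ∈ p.support ∧ y ∈ p.support) a z := by
  induction p with
  | nil =>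
    intro z hz
    rw [Walk.support_nil, List.mem_singleton] at hz
    subst hz
    exact ReflTransGen.refl
  | cons h q ih =>
    intro z hz
    rw [Walk.support_cons, List.mem_cons] at hz
    rcases hz with rfl | hz
    · exact ReflTransGen.refl
    · refine ReflTransGen.head ⟨h, Walk.start_mem_support _, ?_⟩ (rmono (ih z hz) ?_)
      · rw [Walk.support_cons]
        exact List.mem_cons_of_mem _ q.start_mem_support
      · rintro x y ⟨h1, h2, h3⟩
        rw [Walk.support_cons]
        exact ⟨h1, List.mem_cons_of_mem _ h2, List.mem_cons_of_mem _ h3⟩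

theorem contr_tri [Finite U] {H : SimpleGraph U} (hH : H.Connected) (ht : ¬ H.IsAcyclic) :
    ∃ g : U → Fin 3, Contr H (⊤ : SimpleGraph (Fin 3)) g := by
  classical
  unfold IsAcyclic at ht
  push Not at ht
  obtain ⟨v, c, hc⟩ := ht
  cases c with
  | nil => exact absurd hc Walk.not_isCycle_nil
  | cons hvw p =>
    rename_i w
    rw [Walk.cons_isCycle_iff] at hc
    obtain ⟨hp, he⟩ := hc
    cases p with
    | nil => exact absurd rfl hvw.ne
    | cons hwx p2 =>
      rename_i x
      rw [Walk.cons_isPath_iff] at hp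
      obtain ⟨hp2, hw2⟩ := hp
      cases p2 with
      | nil =>
        rw [Walk.edges_cons, List.mem_cons, not_or] at he
        exact absurd (Sym2.eq_swap) he.1
      | cons hxy p3 =>
        rename_i y
        rw [Walk.cons_isPath_iff] at hp2
        obtain ⟨hp3, hx3⟩ := hp2
        rw [Walk.support_cons, List.mem_cons, not_or] at hw2
        obtain ⟨hwx', hw3⟩ := hw2
        let f : U → Fin 3 := fun z => if z = w then 0 else if z = x then 1 else 2
        have hfw : f w = 0 := by simp [f]
        have hfx : f x = 1 := by simp [f, Ne.symm hwx']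
        have hf3 : ∀ z ∈ p3.support, f z = 2 := by
          intro z hz
          have h1 : z ≠ w := fun h => hw3 (h ▸ hz)
          have h2 : z ≠ x := fun h => hx3 (h ▸ hz)
          simp [f, h1, h2]
        obtain ⟨g, hg1, hg2⟩ := grow hH _ ({w, x} ∪ {z | z ∈ p3.support}) f
          ⟨w, Or.inl (Or.inl rfl)⟩ le_rfl (by
            have hch : ∀ z ∈ p3.support, ReflTransGen (Rl H ({w, x} ∪ {z | z ∈ p3.support}) f) y z := by
              intro z hz
              refine rmono (walk_chain p3 z hz) ?_
              rintro a b ⟨h1, h2, h3⟩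
              exact ⟨h1, Or.inr h2, Or.inr h3, by rw [hf3 a h2, hf3 b h3]⟩
            rintro u ((rfl | rfl) | hu) u' ((rfl | rfl) | hu') huu
            · exact ReflTransGen.refl
            · rw [hfw, hfx] at huu; exact absurd huu (by decide)
            · rw [hfw, hf3 _ hu'] at huu; exact absurd huu (by decide)
            · rw [hfw, hfx] at huu; exact absurd huu (by decide)
            · exact ReflTransGen.refl
            · rw [hfx, hf3 _ hu'] at huu; exact absurd huu (by decide)
            · rw [hfw, hf3 _ hu] at huu; exact absurd huu (by decide)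
            · rw [hfx, hf3 _ hu] at huu; exact absurd huu (by decide)
            · exact (rl_symm (hch u hu)).trans (hch u' hu'))
        have gw : g w = 0 := by rw [hg1 w (Or.inl (Or.inl rfl)), hfw]
        have gx : g x = 1 := by rw [hg1 x (Or.inl (Or.inr rfl)), hfx]
        have gy : g y = 2 := by rw [hg1 y (Or.inr p3.start_mem_support), hf3 y p3.start_mem_support]
        have gv : g v = 2 := by rw [hg1 v (Or.inr p3.end_mem_support), hf3 v p3.end_mem_support]
        refine ⟨g, ⟨?_, hg2, ?_⟩⟩
        · intro i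
          fin_cases i
          · exact ⟨w, gw⟩
          · exact ⟨x, gx⟩
          · exact ⟨y, gy⟩
        · intro i j hij
          fin_cases i <;> fin_cases j
          · exact absurd rfl hij
          · exact ⟨w, x, gw, gx, hwx⟩
          · exact ⟨w, v, gw, gv, hvw.symm⟩
          · exact ⟨x, w, gx, gw, hwx.symm⟩
          · exact absurd rfl hij
          · exact ⟨x, y, gx, gy, hxy⟩
          · exact ⟨v, w, gv, gw, hvw⟩
          · exact ⟨y, x, gy, gx, hxy.symm⟩
          · exact absurd rfl hij

end Pool.Agent.J4H92.CP
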