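import Pool.Agent.J4H92.CP.Contract

/-!
# Isomorphisms, monotonicity
-/

set_option autoImplicit false

namespace Pool.Agent.J4H92.CP

open Module SimpleGraph

variable {V V' : Type*}

theorem Mu.mono {G : SimpleGraph V} {j k k' : ℕ} (h : Mu j k G) (hk : k ≤ k') : Mu j k' G := by
  obtain ⟨p, d, h⟩ := h
  exact ⟨p, d, h.trans hk⟩

/-- transport along a bijection; `G` has at least the edges of `G'` -/
theorem Mu.pull [Finite V] [Finite V'] {G : SimpleGraph V} {G' : SimpleGraph V'} {j k : ℕ}
    (e : V ≃ V') (he : ∀ a b, G'.Adj a b → G.Adj (e.symm a) (e.symm b)) (h : Mu j k G') :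
    Mu j k G := by
  obtain ⟨p, d, h⟩ := h
  refine ⟨fun v => p (e v), fun v => d (e v), le_trans ?_ h⟩
  let R : (V → Fin 3 → ℝ) →ₗ[ℝ] (V' → Fin 3 → ℝ) := LinearMap.funLeft ℝ (Fin 3 → ℝ) e.symm
  have hR : ∀ m v, R m v = m (e.symm v) := fun m v => rfl
  have hRS : ∀ m ∈ Sol G (df fun v => p (e v)) (fun v => d (e v)), R m ∈ Sol G' (df p) d := by
    rintro m ⟨h1, h2⟩
    refine ⟨fun a b hab => ?_, fun a i => ?_⟩
    · have h3 := h1 _ _ (he a b hab)
      simp only [df, Equiv.apply_symm_apply] at h3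
      exact h3
    · have h3 := h2 (e.symm a) i
      simp only [Equiv.apply_symm_apply] at h3
      exact h3
  have hinj : Function.Injective ((R.domRestrict
      (Sol G (df fun v => p (e v)) (fun v => d (e v)))).codRestrict (Sol G' (df p) d)
      (fun m => hRS m m.2)) := by
    rw [injective_iff_map_eq_zero]
    rintro ⟨m, hm⟩ h
    rw [Subtype.ext_iff] at h
    have h1 : R m = 0 := h
    rw [Subtype.ext_iff]
    show m = 0
    funext v
    have h2 := congrFun h1 (e v)
    rw [hR, Equiv.symm_apply_apply] at h2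
    exact h2
  exact LinearMap.finrank_le_finrank_of_injective hinj

theorem Mu.of_iso [Finite V] [Finite V'] {G : SimpleGraph V} {G' : SimpleGraph V'} {j k : ℕ}
    (e : G ≃g G') (h : Mu j k G') : Mu j k G :=
  h.pull e.toEquiv (fun a b hab => by
    have := e.symm.map_adj_iff.2 hab
    exact this)

theorem mu_iso_iff [Finite V] [Finite V'] {G : SimpleGraph V} {G' : SimpleGraph V'} {j k : ℕ}
    (e : G ≃g G') : Mu j k G ↔ Mu j k G' :=
  ⟨fun h => h.of_iso e.symm, fun h => h.of_iso e⟩

theorem Mu.mono_graph [Finite V] {G G' : SimpleGraph V} {j k : ℕ} (hle : G' ≤ G) (h : Mu j k G') :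
    Mu j k G := h.pull (Equiv.refl V) (fun _ _ hab => hle hab)

theorem mu_three [Finite V] (G : SimpleGraph V) : Mu 3 0 G := by
  refine ⟨0, fun _ i => Pi.single i 1, ?_⟩
  have : Sol G (df 0) (fun _ i => Pi.single i 1 : V → Fin 3 → Fin 3 → ℝ) = ⊥ := by
    rw [eq_bot_iff]
    rintro m ⟨_, h⟩
    rw [Submodule.mem_bot]
    funext v i
    have := h v i
    rwa [single_dotProduct, one_mul] at this
  rw [this, finrank_bot]

/-- contraction of a factor to a point -/
theorem Mu.point {U W : Type*} [Finite U] [Finite W] {H : SimpleGraph U} {Y : SimpleGraph W}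
    {j k : ℕ} (hH : H.Connected) (hY : Mu (j + 1) 0 Y) (hG : Mu j k Y) : Mu j k (H □ Y) := by
  have hc : Contr H (⊥ : SimpleGraph Unit) (fun _ => ()) := by
    have := hH.nonempty
    refine ⟨fun x => ⟨Classical.arbitrary U, rfl⟩, ?_, fun x x' h => absurd h (by simp)⟩
    intro u u' _
    obtain ⟨w⟩ := hH.preconnected u u'
    induction w with
    | nil => exact Relation.ReflTransGen.refl
    | cons h _ ih => exact Relation.ReflTransGen.head ⟨h, rfl⟩ ih
  refine Mu.contract hc hY (hG.pull (Equiv.punitProd W) ?_)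
  intro a b hab
  exact Or.inr ⟨hab, rfl⟩

end Pool.Agent.J4H92.CP
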