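import Mathlib
import Pool.Agent.H283R2.DR.GenExists

/-!
# Frameworks with pins, limits of frameworks, contraction of a factor
-/

set_option autoImplicit false

namespace Pool.Agent.J4H92.CP

open Pool.Agent.H283R2.DR.TA Module

/-- Few solutions is a good property in a linear family of systems. -/
theorem good_ker {E X Y : Type*} [AddCommGroup E] [Module ℝ E] [AddCommGroup X] [Module ℝ X]
    [AddCommGroup Y] [Module ℝ Y] [FiniteDimensional ℝ X] [FiniteDimensional ℝ Y]
    (L : E →ₗ[ℝ] X →ₗ[ℝ] Y) (k : ℕ) : Good (fun e => finrank ℝ (LinearMap.ker (L e)) ≤ k) := by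
  intro p0 p1 h0
  refine (rank_good (L p0) (L (p1 - p0))).subset ?_
  intro s hs
  rw [Set.mem_ofPred_eq] at hs ⊢
  have e1 : L (p0 + s • (p1 - p0)) = L p0 + s • L (p1 - p0) := by
    rw [map_add, map_smul]
  have hs : ¬ finrank ℝ (LinearMap.ker (L (p0 + s • (p1 - p0)))) ≤ k := hs
  rw [e1] at hs
  have h1 := LinearMap.finrank_range_add_finrank_ker (L p0)
  have h2 := LinearMap.finrank_range_add_finrank_ker (L p0 + s • L (p1 - p0))
  have h0 : finrank ℝ (LinearMap.ker (L p0)) ≤ k := h0
  omega

variable {V : Type*}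

/-- The linear system of a graph with directions `D` at the edges and pins `d`. -/
noncomputable def cm (G : SimpleGraph V) (j : ℕ) :
    ((V → V → Fin 3 → ℝ) × (V → Fin j → Fin 3 → ℝ)) →ₗ[ℝ]
      (V → Fin 3 → ℝ) →ₗ[ℝ] ((V → V → ℝ) × (V → Fin j → ℝ)) := by
  classical
  exact LinearMap.mk₂ ℝ
    (fun e m => ((fun u v => if G.Adj u v then e.1 u v ⬝ᵥ (m u - m v) else 0),
      fun v i => e.2 v i ⬝ᵥ m v))
    (by
      intro e e' m
      refine Prod.ext ?_ ?_
      · funext u v
        by_cases h : G.Adj u v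
        · simp only [h, if_true, Prod.fst_add, Pi.add_apply, add_dotProduct]
        · simp [h]
      · funext v i
        simp [add_dotProduct])
    (by
      intro c e m
      refine Prod.ext ?_ ?_
      · funext u v
        by_cases h : G.Adj u v
        · simp only [h, if_true, Prod.smul_fst, Pi.smul_apply, smul_dotProduct]
        · simp [h]
      · funext v i
        simp [smul_dotProduct])
    (by
      intro e m m'
      refine Prod.ext ?_ ?_
      · funext u v
        by_cases h : G.Adj u v
        · simp only [h, if_true, Prod.fst_add, Pi.add_apply]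
          rw [← dotProduct_add]
          congr 1
          abel
        · simp [h]
      · funext v i
        simp [dotProduct_add])
    (by
      intro c e m
      refine Prod.ext ?_ ?_
      · funext u v
        by_cases h : G.Adj u v
        · simp only [h, if_true, Prod.smul_fst, Pi.smul_apply]
          rw [← smul_sub, dotProduct_smul]
        · simp [h]
      · funext v i
        simp [dotProduct_smul])

/-- Solutions: motions of the framework with directions `D` and pins `d`. -/
def Sol (G : SimpleGraph V) {j : ℕ} (D : V → V → Fin 3 → ℝ) (d : V → Fin j → Fin 3 → ℝ) :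
    Submodule ℝ (V → Fin 3 → ℝ) where
  carrier := {m | (∀ u v, G.Adj u v → D u v ⬝ᵥ (m u - m v) = 0) ∧ ∀ v i, d v i ⬝ᵥ m v = 0}
  zero_mem' := by simp
  add_mem' := by
    rintro m m' ⟨h1, h2⟩ ⟨h1', h2'⟩
    refine ⟨fun u v huv => ?_, fun v i => ?_⟩
    · have : (m + m') u - (m + m') v = (m u - m v) + (m' u - m' v) := by
        simp only [Pi.add_apply]; abel
      rw [this, dotProduct_add, h1 u v huv, h1' u v huv, add_zero]
    · rw [Pi.add_apply, dotProduct_add, h2 v i, h2' v i, add_zero]
  smul_mem' := by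
    rintro c m ⟨h1, h2⟩
    refine ⟨fun u v huv => ?_, fun v i => ?_⟩
    · have : (c • m) u - (c • m) v = c • (m u - m v) := by
        simp only [Pi.smul_apply, smul_sub]
      rw [this, dotProduct_smul, h1 u v huv, smul_zero]
    · rw [Pi.smul_apply, dotProduct_smul, h2 v i, smul_zero]

theorem mem_sol {G : SimpleGraph V} {j : ℕ} {D : V → V → Fin 3 → ℝ} {d : V → Fin j → Fin 3 → ℝ}
    {m : V → Fin 3 → ℝ} : m ∈ Sol G D d ↔
      (∀ u v, G.Adj u v → D u v ⬝ᵥ (m u - m v) = 0) ∧ ∀ v i, d v i ⬝ᵥ m v = 0 := Iff.rfl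

theorem ker_cm (G : SimpleGraph V) {j : ℕ} (D : V → V → Fin 3 → ℝ)
    (d : V → Fin j → Fin 3 → ℝ) : LinearMap.ker (cm G j (D, d)) = Sol G D d := by
  classical
  ext m
  rw [LinearMap.mem_ker, mem_sol, cm, LinearMap.mk₂_apply, Prod.ext_iff]
  constructor
  · rintro ⟨h1, h2⟩
    refine ⟨fun u v huv => ?_, fun v i => ?_⟩
    · have := congrFun (congrFun h1 u) v
      simpa [huv] using this
    · exact congrFun (congrFun h2 v) i
  · rintro ⟨h1, h2⟩
    refine ⟨?_, ?_⟩
    · funext u v
      by_cases h : G.Adj u v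
      · simp [h, h1 u v h]
      · simp [h]
    · funext v i
      exact h2 v i

theorem good_sol [Finite V] {E : Type*} [AddCommGroup E] [Module ℝ E] (G : SimpleGraph V) {j : ℕ}
    (L : E →ₗ[ℝ] ((V → V → Fin 3 → ℝ) × (V → Fin j → Fin 3 → ℝ))) (k : ℕ) :
    Good (fun e => finrank ℝ (Sol G (L e).1 (L e).2) ≤ k) := by
  have h := good_ker ((cm G j).comp L) k
  intro p0 p1 h0
  have key : ∀ e, LinearMap.ker (((cm G j).comp L) e) = Sol G (L e).1 (L e).2 := fun e =>
    ker_cm _ _ _
  refine (h p0 p1 ?_).subset ?_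
  · show finrank ℝ (LinearMap.ker (((cm G j).comp L) p0)) ≤ k
    rw [key]
    exact h0
  · intro s hs
    rw [Set.mem_ofPred_eq] at hs ⊢
    show ¬ finrank ℝ (LinearMap.ker (((cm G j).comp L) (p0 + s • (p1 - p0)))) ≤ k
    rw [key]
    exact hs

/-- the directions of a placement -/
def df (p : V → Fin 3 → ℝ) : V → V → Fin 3 → ℝ := fun u v => p u - p v

/-- With `j` pins at each vertex, there is a placement with at most `k` degrees of freedom. -/
def Mu (j k : ℕ) (G : SimpleGraph V) : Prop :=
  ∃ (p : V → Fin 3 → ℝ) (d : V → Fin j → Fin 3 → ℝ), finrank ℝ (Sol G (df p) d) ≤ k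

/-- The directions of the limit of placements in which the points of a class collapse. -/
noncomputable def lim {C : Type*} (c : V → C) (q : C → Fin 3 → ℝ) (s : V → Fin 3 → ℝ) :
    V → V → Fin 3 → ℝ := by
  classical
  exact fun u v => if c u = c v then s u - s v else q (c u) - q (c v)

theorem lim_eq {C : Type*} {c : V → C} (q : C → Fin 3 → ℝ) (s : V → Fin 3 → ℝ) {u v : V}
    (h : c u = c v) : lim c q s u v = s u - s v := by
  simp [lim, h]

theorem lim_ne {C : Type*} {c : V → C} (q : C → Fin 3 → ℝ) (s : V → Fin 3 → ℝ) {u v : V}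
    (h : c u ≠ c v) : lim c q s u v = q (c u) - q (c v) := by
  simp [lim, h]

theorem mu_of_lim [Finite V] {G : SimpleGraph V} {j k : ℕ} {C : Type*} (c : V → C)
    (q : C → Fin 3 → ℝ) (s : V → Fin 3 → ℝ) (d : V → Fin j → Fin 3 → ℝ)
    (h : finrank ℝ (Sol G (lim c q s) d) ≤ k) : Mu j k G := by
  classical
  -- the line of direction functions
  set D1 : V → V → Fin 3 → ℝ := fun u v => if c u = c v then 0 else s u - s v with hD1
  have hg := good_sol G (j := j) (E := (V → V → Fin 3 → ℝ) × (V → Fin j → Fin 3 → ℝ))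
    LinearMap.id k (lim c q s, d) (lim c q s + D1, d) h
  obtain ⟨e, he⟩ := (hg.union (Set.finite_singleton (0 : ℝ))).infinite_compl.nonempty
  rw [Set.mem_compl_iff, Set.mem_union, not_or, Set.mem_singleton_iff, Set.mem_ofPred_eq,
    not_not] at he
  obtain ⟨he1, he0⟩ := he
  refine ⟨fun v => q (c v) + e • s v, d, ?_⟩
  have h1 : Sol G (df fun v => q (c v) + e • s v) d =
      Sol G (LinearMap.id (R := ℝ) ((lim c q s, d) + e • ((lim c q s + D1, d) - (lim c q s, d))) :
        (V → V → Fin 3 → ℝ) × (V → Fin j → Fin 3 → ℝ)).1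
        (LinearMap.id (R := ℝ) ((lim c q s, d) + e • ((lim c q s + D1, d) - (lim c q s, d))) :
        (V → V → Fin 3 → ℝ) × (V → Fin j → Fin 3 → ℝ)).2 := by
    ext m
    rw [mem_sol, mem_sol]
    have e2 : (LinearMap.id (R := ℝ) ((lim c q s, d) + e • ((lim c q s + D1, d) - (lim c q s, d))) :
        (V → V → Fin 3 → ℝ) × (V → Fin j → Fin 3 → ℝ)).2 = d := by
      simp
    have e1 : (LinearMap.id (R := ℝ) ((lim c q s, d) + e • ((lim c q s + D1, d) - (lim c q s, d))) :
        (V → V → Fin 3 → ℝ) × (V → Fin j → Fin 3 → ℝ)).1 = lim c q s + e • D1 := by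
      simp
    rw [e1, e2]
    refine and_congr (forall_congr' fun u => forall_congr' fun v => forall_congr' fun _ => ?_)
      Iff.rfl
    by_cases huv : c u = c v
    · have e3 : df (fun v => q (c v) + e • s v) u v = e • (s u - s v) := by
        simp only [df, huv]
        rw [smul_sub]
        abel
      have e4 : (lim c q s + e • D1) u v = s u - s v := by
        simp only [Pi.add_apply, Pi.smul_apply, lim_eq q s huv, hD1, huv, if_true, smul_zero,
          add_zero]
      rw [e3, e4, smul_dotProduct, smul_eq_mul, mul_eq_zero]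
      constructor
      · rintro (h | h)
        · exact absurd h he0
        · exact h
      · exact Or.inr
    · have e3 : df (fun v => q (c v) + e • s v) u v = (lim c q s + e • D1) u v := by
        simp only [df, Pi.add_apply, Pi.smul_apply, lim_ne q s huv, hD1, huv, if_false]
        rw [smul_sub]
        abel
      rw [e3]
  rw [h1]
  exact he1

end Pool.Agent.J4H92.CP
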