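import Pool.Agent.J4H92.CP.Std

/-!
# Products of lists of graphs
-/

set_option autoImplicit false

namespace Pool.Agent.J4H92.CP

open SimpleGraph

/-- a finite graph with its vertex set -/
structure FG where
  /-- vertices -/
  V : Type
  /-- finiteness -/
  ft : Fintype V
  /-- graph -/
  G : SimpleGraph V

attribute [instance] FG.ft

/-- the Cartesian product of a list of graphs -/
def prodL : List FG → FG
  | [] => ⟨Unit, inferInstance, ⊥⟩
  | A :: L => ⟨A.V × (prodL L).V, inferInstance, A.G □ (prodL L).G⟩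

/-- congruence in the second factor -/
def bpc {α β β' : Type} (A : SimpleGraph α) {Y : SimpleGraph β} {Y' : SimpleGraph β'}
    (e : Y ≃g Y') : SimpleGraph.boxProd A Y ≃g SimpleGraph.boxProd A Y' where
  toEquiv := Equiv.prodCongr (Equiv.refl α) e.toEquiv
  map_rel_iff' := by
    intro x y
    simp [boxProd_adj, e.map_adj_iff]

/-- swapping two factors -/
def bps {α β γ : Type} (A : SimpleGraph α) (B : SimpleGraph β) (Y : SimpleGraph γ) :
    SimpleGraph.boxProd A (SimpleGraph.boxProd B Y) ≃g
      SimpleGraph.boxProd B (SimpleGraph.boxProd A Y) where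
  toEquiv := (Equiv.prodAssoc α β γ).symm.trans
    ((Equiv.prodCongr (Equiv.prodComm α β) (Equiv.refl γ)).trans (Equiv.prodAssoc β α γ))
  map_rel_iff' := by
    rintro ⟨a, b, c⟩ ⟨a', b', c'⟩
    simp only [boxProd_adj, Equiv.trans_apply, Equiv.prodAssoc_symm_apply, Equiv.prodCongr_apply,
      Prod.map_apply, Equiv.prodComm_apply, Prod.swap_prod_mk, Equiv.prodAssoc_apply,
      Equiv.refl_apply, Prod.mk.injEq]
    tauto

theorem perm_iso {L L' : List FG} (h : L.Perm L') : Nonempty ((prodL L).G ≃g (prodL L').G) := by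
  induction h with
  | nil => exact ⟨Iso.refl⟩
  | cons A _ ih =>
    obtain ⟨e⟩ := ih
    exact ⟨bpc A.G e⟩
  | swap A B L => exact ⟨bps B.G A.G (prodL L).G⟩
  | trans _ _ ih1 ih2 =>
    obtain ⟨e1⟩ := ih1
    obtain ⟨e2⟩ := ih2
    exact ⟨e1.trans e2⟩

/-- degrees of freedom of the product of a list -/
def MuL (j k : ℕ) (L : List FG) : Prop := Mu j k (prodL L).G

theorem MuL.perm {j k : ℕ} {L L' : List FG} (h : L.Perm L') (hL : MuL j k L') : MuL j k L := by
  obtain ⟨e⟩ := perm_iso h
  exact Mu.of_iso e hL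

/-- connected with at least two vertices -/
def Nt (A : FG) : Prop := A.G.Connected ∧ 2 ≤ Fintype.card A.V

/-- `A` can be contracted onto `B` -/
def Ct (A B : FG) : Prop := ∃ g : A.V → B.V, Contr A.G B.G g

theorem MuL.head {j k : ℕ} {A B : FG} {L : List FG} (h : Ct A B) (hp : MuL (j + 1) 0 L)
    (hL : MuL j k (B :: L)) : MuL j k (A :: L) := by
  obtain ⟨g, hg⟩ := h
  exact Mu.contract hg hp hL

theorem MuL.point {j k : ℕ} {A : FG} {L : List FG} (hA : A.G.Connected) (hp : MuL (j + 1) 0 L)
    (hL : MuL j k L) : MuL j k (A :: L) := Mu.point hA hp hL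

/-- contraction of all factors -/
theorem contr_all {j k n : ℕ}
    (hpin : ∀ L : List FG, L.length = n → (∀ A ∈ L, Nt A) → MuL (j + 1) 0 L)
    {L L' : List FG} (h : List.Forall₂ (fun A B => Ct A B ∧ Nt A ∧ Nt B) L L') :
    ∀ M : List FG, (∀ A ∈ M, Nt A) → M.length + L.length = n + 1 → MuL j k (M ++ L') →
      MuL j k (M ++ L) := by
  induction h with
  | nil => exact fun M _ _ h => h
  | cons hAB hT ih =>
    rename_i A B T T'
    intro M hM hlen hmu
    have hlen' : T.length = T'.length := hT.length_eq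
    rw [List.length_cons] at hlen
    have h1 : MuL j k (B :: (M ++ T')) := hmu.perm List.perm_middle.symm
    have h2 : MuL (j + 1) 0 (M ++ T') := by
      refine hpin _ ?_ ?_
      · rw [List.length_append, ← hlen']; omega
      · intro C hC
        rcases List.mem_append.1 hC with hC | hC
        · exact hM C hC
        · obtain ⟨i, hi, rfl⟩ := List.mem_iff_getElem.1 hC
          exact (hT.get (by rw [hlen']; exact hi) hi).2.2
    have h3 : MuL j k (A :: (M ++ T')) := MuL.head hAB.1 h2 h1
    have h4 : MuL j k ((M ++ [A]) ++ T') := by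
      refine h3.perm ?_
      rw [List.append_assoc]
      exact List.perm_middle
    have h5 := ih (M ++ [A]) (by
      intro C hC
      rcases List.mem_append.1 hC with hC | hC
      · exact hM C hC
      · rw [List.mem_singleton] at hC
        rw [hC]
        exact hAB.2.1) (by
        rw [List.length_append, List.length_singleton]; omega) h4
    rw [List.append_assoc] at h5
    exact h5

/-- standard factors -/
def fT (m : ℕ) (a : ℕ → ℕ) : FG := ⟨Fin m, inferInstance, Ta m a⟩

/-- triangle -/
def fK : FG := ⟨Fin 3, inferInstance, ⊤⟩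

theorem coded_unit : Coded (prodL []).G 1 (fun _ _ => false) :=
  ⟨(Equiv.ofUnique Unit (Fin 1) : Unit ≃ Fin 1), fun _ _ h => absurd h Bool.false_ne_true⟩

end Pool.Agent.J4H92.CP
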