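import Pool.Agent.J4H92.CP.Base1
import Pool.Agent.J4H92.CP.Base2
import Pool.Agent.J4H92.CP.Base3
import Pool.Agent.J4H92.CP.Base4

/-!
# Degrees of freedom of products of at least five factors
-/

set_option autoImplicit false

namespace Pool.Agent.J4H92.CP

open SimpleGraph Relation

/-- trees of a parent function are connected -/
theorem conn_Ta {m : ℕ} {a : ℕ → ℕ} (hm : 0 < m) (ha : ∀ i < m, 0 < i → a i < i) :
    (Ta m a).Connected := by
  have h0 : ∀ n (hn : n < m), (Ta m a).Reachable ⟨0, hm⟩ ⟨n, hn⟩ := by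
    intro n
    induction n using Nat.strong_induction_on with
    | _ n ih =>
      intro hn
      rcases Nat.eq_zero_or_pos n with h | h
      · subst h
        exact Reachable.refl _
      · have h1 := ha n hn h
        refine (ih (a n) h1 (h1.trans hn)).trans (Adj.reachable ?_)
        refine ⟨fun hc => ?_, Or.inl ⟨h, rfl⟩⟩
        have := congrArg Fin.val hc
        simp only at this
        omega
  have : Nonempty (Fin m) := ⟨⟨0, hm⟩⟩
  refine ⟨fun x y => ?_⟩
  exact (h0 x x.2).symm.trans (h0 y y.2)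

theorem nt_fT {m : ℕ} {a : ℕ → ℕ} (hm : 2 ≤ m) (ha : ∀ i < m, 0 < i → a i < i) : Nt (fT m a) :=
  ⟨conn_Ta (by omega) ha, by
    show 2 ≤ Fintype.card (Fin m)
    rw [Fintype.card_fin]
    exact hm⟩

theorem nt_S {m : ℕ} (hm : 2 ≤ m) : Nt (fT m pS) := nt_fT hm (fun _ _ h => h)

theorem nt_P {m : ℕ} (hm : 2 ≤ m) : Nt (fT m pP) := nt_fT hm (fun i _ h => by
  unfold pP
  omega)

theorem nt_F {m : ℕ} (hm : 2 ≤ m) : Nt (fT m pF) := nt_fT hm (fun i _ h => by
  unfold pF
  split_ifs <;> omega)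

theorem nt_K : Nt fK := ⟨(connected_top : (⊤ : SimpleGraph (Fin 3)).Connected), by
    show 2 ≤ Fintype.card (Fin 3)
    rw [Fintype.card_fin]
    norm_num⟩

theorem ct_refl (A : FG) : Ct A A :=
  ⟨id, ⟨Function.surjective_id, fun u u' h => by
    have : u = u' := h
    rw [this], fun x x' h => ⟨x, x', rfl, rfl, h⟩⟩⟩

theorem ct_two {A : FG} (hA : Nt A) : Ct A (fT 2 pS) := contr_two hA.1 hA.2

/-- contraction to two-vertex factors -/
theorem twos {L : List FG} (h : ∀ A ∈ L, Nt A) :
    List.Forall₂ (fun A B => Ct A B ∧ Nt A ∧ Nt B) L (List.replicate L.length (fT 2 pS)) := by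
  induction L with
  | nil => exact List.Forall₂.nil
  | cons A L ih =>
    rw [List.length_cons, List.replicate_succ]
    exact List.Forall₂.cons ⟨ct_two (h A List.mem_cons_self), h A List.mem_cons_self,
      nt_S le_rfl⟩ (ih fun B hB => h B (List.mem_cons_of_mem _ hB))

theorem muL_three (L : List FG) : MuL 3 0 L := mu_three _

theorem pin2 (L : List FG) (hL : 2 ≤ L.length) (h : ∀ A ∈ L, Nt A) : MuL 2 0 L := by
  induction L with
  | nil => simp at hL
  | cons A T ih =>
    rcases Nat.lt_or_ge T.length 2 with h2 | h2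
    · have hlen : (A :: T).length = 2 := by
        rw [List.length_cons] at hL ⊢
        omega
      have h3 := twos h
      rw [hlen] at h3
      have := contr_all (j := 2) (k := 0) (n := 1) (fun L _ _ => muL_three L) h3 [] (by simp)
        (by rw [hlen]; rfl) base_Q2p
      exact this
    · exact MuL.point (h A List.mem_cons_self).1 (muL_three _)
        (ih h2 fun B hB => h B (List.mem_cons_of_mem _ hB))

theorem pin1 (L : List FG) (hL : 4 ≤ L.length) (h : ∀ A ∈ L, Nt A) : MuL 1 0 L := by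
  induction L with
  | nil => simp at hL
  | cons A T ih =>
    rcases Nat.lt_or_ge T.length 4 with h2 | h2
    · have hlen : (A :: T).length = 4 := by
        rw [List.length_cons] at hL ⊢
        omega
      have h3 := twos h
      rw [hlen] at h3
      have := contr_all (j := 1) (k := 0) (n := 3)
        (fun L hL hN => pin2 L (by omega) hN) h3 [] (by simp)
        (by rw [hlen]; rfl) base_Q4p
      exact this
    · rw [List.length_cons] at hL
      exact MuL.point (h A List.mem_cons_self).1 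
        (pin2 _ (by omega) fun B hB => h B (List.mem_cons_of_mem _ hB))
        (ih h2 fun B hB => h B (List.mem_cons_of_mem _ hB))

theorem rigid_six (L : List FG) (hL : 6 ≤ L.length) (h : ∀ A ∈ L, Nt A) : MuL 0 6 L := by
  induction L with
  | nil => simp at hL
  | cons A T ih =>
    rcases Nat.lt_or_ge T.length 6 with h2 | h2
    · have hlen : (A :: T).length = 6 := by
        rw [List.length_cons] at hL ⊢
        omega
      have h3 := twos h
      rw [hlen] at h3
      have := contr_all (j := 0) (k := 6) (n := 5)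
        (fun L hL hN => pin1 L (by omega) hN) h3 [] (by simp)
        (by rw [hlen]; rfl) base_Q6
      exact this
    · rw [List.length_cons] at hL
      exact MuL.point (h A List.mem_cons_self).1 
        (pin1 _ (by omega) fun B hB => h B (List.mem_cons_of_mem _ hB))
        (ih h2 fun B hB => h B (List.mem_cons_of_mem _ hB))

section five

variable {A B C D E : FG}

theorem five_contr {k : ℕ} {A' B' C' D' E' : FG} (hA : Nt A) (hB : Nt B) (hC : Nt C) (hD : Nt D)
    (hE : Nt E) (hA' : Nt A') (hB' : Nt B') (hC' : Nt C') (hD' : Nt D') (hE' : Nt E')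
    (cA : Ct A A') (cB : Ct B B') (cC : Ct C C') (cD : Ct D D') (cE : Ct E E')
    (h : MuL 0 k [A', B', C', D', E']) : MuL 0 k [A, B, C, D, E] := by
  refine contr_all (j := 0) (k := k) (n := 4) (fun L hL hN => pin1 L (by omega) hN)
    (L := [A, B, C, D, E]) (L' := [A', B', C', D', E']) ?_ [] (by simp) (by simp) h
  exact List.Forall₂.cons ⟨cA, hA, hA'⟩ (List.Forall₂.cons ⟨cB, hB, hB'⟩
    (List.Forall₂.cons ⟨cC, hC, hC'⟩ (List.Forall₂.cons ⟨cD, hD, hD'⟩
    (List.Forall₂.cons ⟨cE, hE, hE'⟩ List.Forall₂.nil))))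

theorem perm_last (A B C D E : FG) : [E, A, B, C, D].Perm [A, B, C, D, E] := by
  have : ([A, B, C, D] ++ [E]).Perm (E :: ([A, B, C, D] ++ [])) := List.perm_middle
  exact this.symm

/-- a factor which is not a tree -/
theorem five_cycle (hA : Nt A) (hB : Nt B) (hC : Nt C) (hD : Nt D) (hE : Nt E)
    (hE' : ¬ E.G.IsAcyclic) : MuL 0 6 [A, B, C, D, E] :=
  five_contr hA hB hC hD hE (nt_S le_rfl) (nt_S le_rfl) (nt_S le_rfl) (nt_S le_rfl) nt_K
    (ct_two hA) (ct_two hB) (ct_two hC) (ct_two hD) (contr_tri hE.1 hE') base_Q4C3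

/-- the exceptional products -/
theorem five_2222 (hA : Nt A) (hB : Nt B) (hC : Nt C) (hD : Nt D) (hE : Nt E) :
    MuL 0 16 [A, B, C, D, E] := by
  refine five_contr hA hB hC hD hE (nt_S le_rfl) (nt_S le_rfl) (nt_S le_rfl) (nt_S le_rfl) hE
    (ct_two hA) (ct_two hB) (ct_two hC) (ct_two hD) (ct_refl E) ?_
  refine MuL.perm (perm_last _ _ _ _ _).symm ?_
  exact MuL.point hE.1 base_Q4p base_Q4

theorem five_22233 (hA : Nt A) (hB : Nt B) (hC : Nt C) (hD : Nt D) (hE : Nt E)
    (d3 : 3 ≤ Fintype.card D.V) (e3 : 3 ≤ Fintype.card E.V) : MuL 0 12 [A, B, C, D, E] :=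
  five_contr hA hB hC hD hE (nt_S le_rfl) (nt_S le_rfl) (nt_S le_rfl) (nt_P (by norm_num))
    (nt_P (by norm_num)) (ct_two hA) (ct_two hB) (ct_two hC) (contr_three hD.1 d3)
    (contr_three hE.1 e3) base_Q3P3P3

theorem five_22234 (hA : Nt A) (hB : Nt B) (hC : Nt C) (hD : Nt D) (hE : Nt E)
    (d3 : 3 ≤ Fintype.card D.V) (e4 : 4 ≤ Fintype.card E.V) : MuL 0 8 [A, B, C, D, E] := by
  rcases contr_four hE.1 e4 with h | h
  · exact five_contr hA hB hC hD hE (nt_S le_rfl) (nt_S le_rfl) (nt_S le_rfl) (nt_P (by norm_num))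
      (nt_P (by norm_num)) (ct_two hA) (ct_two hB) (ct_two hC) (contr_three hD.1 d3)
      h base_Q3P3P4
  · exact five_contr hA hB hC hD hE (nt_S le_rfl) (nt_S le_rfl) (nt_S le_rfl) (nt_P (by norm_num))
      (nt_S (by norm_num)) (ct_two hA) (ct_two hB) (ct_two hC) (contr_three hD.1 d3)
      h base_Q3P3S4

theorem five_22235 (hA : Nt A) (hB : Nt B) (hC : Nt C) (hD : Nt D) (hE : Nt E)
    (d3 : 3 ≤ Fintype.card D.V) (e5 : 5 ≤ Fintype.card E.V) : MuL 0 6 [A, B, C, D, E] := by
  rcases contr_five hE.1 e5 with h | h | h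
  · exact five_contr hA hB hC hD hE (nt_S le_rfl) (nt_S le_rfl) (nt_S le_rfl) (nt_P (by norm_num))
      (nt_P (by norm_num)) (ct_two hA) (ct_two hB) (ct_two hC) (contr_three hD.1 d3)
      h base_Q3P3P5
  · exact five_contr hA hB hC hD hE (nt_S le_rfl) (nt_S le_rfl) (nt_S le_rfl) (nt_P (by norm_num))
      (nt_F (by norm_num)) (ct_two hA) (ct_two hB) (ct_two hC) (contr_three hD.1 d3)
      h base_Q3P3F5
  · exact five_contr hA hB hC hD hE (nt_S le_rfl) (nt_S le_rfl) (nt_S le_rfl) (nt_P (by norm_num))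
      (nt_S (by norm_num)) (ct_two hA) (ct_two hB) (ct_two hC) (contr_three hD.1 d3)
      h base_Q3P3S5

theorem five_22244 (hA : Nt A) (hB : Nt B) (hC : Nt C) (hD : Nt D) (hE : Nt E)
    (d4 : 4 ≤ Fintype.card D.V) (e4 : 4 ≤ Fintype.card E.V) : MuL 0 6 [A, B, C, D, E] := by
  have hsw : MuL 0 6 [fT 2 pS, fT 2 pS, fT 2 pS, fT 4 pS, fT 4 pP] := by
    refine MuL.perm ?_ base_Q3P4S4
    exact ((List.Perm.swap _ _ []).cons _).cons _ |>.cons _
  rcases contr_four hD.1 d4 with h' | h' <;> rcases contr_four hE.1 e4 with h | h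
  · exact five_contr hA hB hC hD hE (nt_S le_rfl) (nt_S le_rfl) (nt_S le_rfl) (nt_P (by norm_num))
      (nt_P (by norm_num)) (ct_two hA) (ct_two hB) (ct_two hC) h' h base_Q3P4P4
  · exact five_contr hA hB hC hD hE (nt_S le_rfl) (nt_S le_rfl) (nt_S le_rfl) (nt_P (by norm_num))
      (nt_S (by norm_num)) (ct_two hA) (ct_two hB) (ct_two hC) h' h base_Q3P4S4
  · exact five_contr hA hB hC hD hE (nt_S le_rfl) (nt_S le_rfl) (nt_S le_rfl) (nt_S (by norm_num))
      (nt_P (by norm_num)) (ct_two hA) (ct_two hB) (ct_two hC) h' h hsw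
  · exact five_contr hA hB hC hD hE (nt_S le_rfl) (nt_S le_rfl) (nt_S le_rfl) (nt_S (by norm_num))
      (nt_S (by norm_num)) (ct_two hA) (ct_two hB) (ct_two hC) h' h base_Q3S4S4

theorem five_22333 (hA : Nt A) (hB : Nt B) (hC : Nt C) (hD : Nt D) (hE : Nt E)
    (c3 : 3 ≤ Fintype.card C.V)
    (d3 : 3 ≤ Fintype.card D.V) (e3 : 3 ≤ Fintype.card E.V) : MuL 0 6 [A, B, C, D, E] :=
  five_contr hA hB hC hD hE (nt_S le_rfl) (nt_S le_rfl) (nt_P (by norm_num)) (nt_P (by norm_num))
    (nt_P (by norm_num)) (ct_two hA) (ct_two hB) (contr_three hC.1 c3) (contr_three hD.1 d3)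
    (contr_three hE.1 e3) base_Q2P3P3P3

end five

end Pool.Agent.J4H92.CP
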