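import Pool.Agent.J4H92.CP.Grow
import Pool.Agent.J4H92.CP.Cert

/-!
# Standard factors and their codes
-/

set_option autoImplicit false

namespace Pool.Agent.J4H92.CP

open SimpleGraph

instance (m : ℕ) (a : ℕ → ℕ) : DecidableRel (Ta m a).Adj := fun x y =>
  inferInstanceAs (Decidable (x ≠ y ∧
    ((0 < (y : ℕ) ∧ (x : ℕ) = a y) ∨ (0 < (x : ℕ) ∧ (y : ℕ) = a x))))

/-- code of `Ta` -/
def aT (a : ℕ → ℕ) (x y : ℕ) : Bool :=
  !(Nat.beq x y) && ((Nat.blt 0 y && Nat.beq x (a y)) || (Nat.blt 0 x && Nat.beq y (a x)))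

theorem coded_Ta (m : ℕ) (a : ℕ → ℕ) : Coded (Ta m a) m (aT a) := by
  refine ⟨Equiv.refl _, fun u v h => ?_⟩
  unfold aT at h
  rw [Bool.and_eq_true, Bool.or_eq_true, Bool.and_eq_true, Bool.and_eq_true,
    Bool.not_eq_true'] at h
  obtain ⟨h0, h⟩ := h
  refine ⟨fun hc => ?_, ?_⟩
  · have hc' : u = v := hc
    rw [hc', Nat.beq_refl] at h0
    exact absurd h0 (by decide)
  · rcases h with ⟨h1, h2⟩ | ⟨h1, h2⟩
    · exact Or.inl ⟨Nat.le_of_ble_eq_true h1, Nat.eq_of_beq_eq_true h2⟩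
    · exact Or.inr ⟨Nat.le_of_ble_eq_true h1, Nat.eq_of_beq_eq_true h2⟩

/-- code of a complete graph -/
def aK (x y : ℕ) : Bool := !(Nat.beq x y)

theorem coded_top (m : ℕ) : Coded (⊤ : SimpleGraph (Fin m)) m aK := by
  refine ⟨Equiv.refl _, fun u v h => ?_⟩
  unfold aK at h
  rw [Bool.not_eq_true'] at h
  rw [top_adj]
  intro hc
  have hc' : u = v := hc
  rw [hc', Nat.beq_refl] at h
  exact absurd h (by decide)

/-- parents: path -/
def pP (i : ℕ) : ℕ := i - 1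

/-- parents: star -/
def pS (_ : ℕ) : ℕ := 0

/-- parents: fork -/
def pF (i : ℕ) : ℕ := if i = 4 then 2 else i - 1

/-- parents by a table -/
def pt (a b c : ℕ) (i : ℕ) : ℕ := if i = 2 then a else if i = 3 then b else if i = 4 then c else 0

theorem Ta_congr {m : ℕ} {a b : ℕ → ℕ} (h : ∀ i < m, 0 < i → a i = b i) : Ta m a = Ta m b := by
  ext x y
  have key : ∀ x y : Fin m, (0 < (y : ℕ) ∧ (x : ℕ) = a y) ↔ (0 < (y : ℕ) ∧ (x : ℕ) = b y) := by
    intro x y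
    constructor
    · rintro ⟨h1, h2⟩
      exact ⟨h1, by rw [h2, h y y.2 h1]⟩
    · rintro ⟨h1, h2⟩
      exact ⟨h1, by rw [h2, h y y.2 h1]⟩
  show (x ≠ y ∧ _) ↔ (x ≠ y ∧ _)
  rw [key x y, key y x]

theorem Contr.relabel {U : Type*} {H : SimpleGraph U} {m : ℕ} {a b : ℕ → ℕ} {g : U → Fin m}
    (h : Contr H (Ta m a) g) (σ τ : Fin m → Fin m) (h1 : ∀ x, τ (σ x) = x) (h2 : ∀ x, σ (τ x) = x)
    (h3 : ∀ x y, (Ta m b).Adj x y → (Ta m a).Adj (τ x) (τ y)) :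
    Contr H (Ta m b) (fun u => σ (g u)) := by
  have hinj : ∀ x y, σ x = σ y → x = y := fun x y hxy => by rw [← h1 x, ← h1 y, hxy]
  refine ⟨fun x => ?_, fun u u' huu => ?_, fun x y hxy => ?_⟩
  · obtain ⟨u, hu⟩ := h.surj (τ x)
    exact ⟨u, by simp only [hu, h2]⟩
  · refine rmono (h.conn u u' (hinj _ _ huu)) ?_
    rintro a b ⟨hab, hg⟩
    exact ⟨hab, by simp only [hg]⟩
  · obtain ⟨u, u', hu, hu', huu⟩ := h.cov _ _ (h3 x y hxy)
    exact ⟨u, u', by simp only [hu, h2], by simp only [hu', h2], huu⟩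

theorem contr_two {U : Type} [Fintype U] {H : SimpleGraph U} (hH : H.Connected)
    (hU : 2 ≤ Fintype.card U) : ∃ g : U → Fin 2, Contr H (Ta 2 pS) g := by
  obtain ⟨a, ha, g, hg⟩ := contr_tree hH (by norm_num) hU
  have : Ta 2 a = Ta 2 pS := Ta_congr (fun i hi hi0 => by
    have h1 := ha i hi hi0
    have h2 : i = 1 := by omega
    subst h2
    unfold pS
    omega)
  rw [this] at hg
  exact ⟨g, hg⟩

theorem contr_three {U : Type} [Fintype U] {H : SimpleGraph U} (hH : H.Connected)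
    (hU : 3 ≤ Fintype.card U) : (∃ g : U → Fin 3, Contr H (Ta 3 pP) g) := by
  obtain ⟨a, ha, g, hg⟩ := contr_tree hH (by norm_num) hU
  have a1 := ha 1 (by norm_num) (by norm_num)
  have a2 := ha 2 (by norm_num) (by norm_num)
  have e : Ta 3 a = Ta 3 (pt (a 2) 0 0) := Ta_congr (fun i hi hi0 => by
    unfold pt
    interval_cases i
    · simp; omega
    · simp)
  rw [e] at hg
  generalize a 2 = x2 at *
  interval_cases x2
  · exact ⟨_, hg.relabel ![1, 0, 2] ![1, 0, 2] (by decide) (by decide) (by decide)⟩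
  · exact ⟨_, hg.relabel ![0, 1, 2] ![0, 1, 2] (by decide) (by decide) (by decide)⟩

theorem contr_four {U : Type} [Fintype U] {H : SimpleGraph U} (hH : H.Connected)
    (hU : 4 ≤ Fintype.card U) : (∃ g : U → Fin 4, Contr H (Ta 4 pP) g) ∨ (∃ g : U → Fin 4, Contr H (Ta 4 pS) g) := by
  obtain ⟨a, ha, g, hg⟩ := contr_tree hH (by norm_num) hU
  have a1 := ha 1 (by norm_num) (by norm_num)
  have a2 := ha 2 (by norm_num) (by norm_num)
  have a3 := ha 3 (by norm_num) (by norm_num)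
  have e : Ta 4 a = Ta 4 (pt (a 2) (a 3) 0) := Ta_congr (fun i hi hi0 => by
    unfold pt
    interval_cases i
    · simp; omega
    · simp
    · simp)
  rw [e] at hg
  generalize a 2 = x2 at *
  generalize a 3 = x3 at *
  interval_cases x2 <;> interval_cases x3
  · exact Or.inr (⟨_, hg.relabel ![0, 1, 2, 3] ![0, 1, 2, 3] (by decide) (by decide) (by decide)⟩)
  · exact Or.inl (⟨_, hg.relabel ![1, 2, 0, 3] ![2, 0, 1, 3] (by decide) (by decide) (by decide)⟩)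
  · exact Or.inl (⟨_, hg.relabel ![1, 0, 2, 3] ![1, 0, 2, 3] (by decide) (by decide) (by decide)⟩)
  · exact Or.inl (⟨_, hg.relabel ![2, 1, 0, 3] ![2, 1, 0, 3] (by decide) (by decide) (by decide)⟩)
  · exact Or.inr (⟨_, hg.relabel ![1, 0, 2, 3] ![1, 0, 2, 3] (by decide) (by decide) (by decide)⟩)
  · exact Or.inl (⟨_, hg.relabel ![0, 1, 2, 3] ![0, 1, 2, 3] (by decide) (by decide) (by decide)⟩)

theorem contr_five {U : Type} [Fintype U] {H : SimpleGraph U} (hH : H.Connected)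
    (hU : 5 ≤ Fintype.card U) : (∃ g : U → Fin 5, Contr H (Ta 5 pP) g) ∨ (∃ g : U → Fin 5, Contr H (Ta 5 pF) g) ∨ (∃ g : U → Fin 5, Contr H (Ta 5 pS) g) := by
  obtain ⟨a, ha, g, hg⟩ := contr_tree hH (by norm_num) hU
  have a1 := ha 1 (by norm_num) (by norm_num)
  have a2 := ha 2 (by norm_num) (by norm_num)
  have a3 := ha 3 (by norm_num) (by norm_num)
  have a4 := ha 4 (by norm_num) (by norm_num)
  have e : Ta 5 a = Ta 5 (pt (a 2) (a 3) (a 4)) := Ta_congr (fun i hi hi0 => by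
    unfold pt
    interval_cases i
    · simp; omega
    · simp
    · simp
    · simp)
  rw [e] at hg
  generalize a 2 = x2 at *
  generalize a 3 = x3 at *
  generalize a 4 = x4 at *
  interval_cases x2 <;> interval_cases x3 <;> interval_cases x4
  · exact Or.inr (Or.inr (⟨_, hg.relabel ![0, 1, 2, 3, 4] ![0, 1, 2, 3, 4] (by decide) (by decide) (by decide)⟩))
  · exact Or.inr (Or.inl (⟨_, hg.relabel ![2, 1, 3, 4, 0] ![4, 1, 0, 2, 3] (by decide) (by decide) (by decide)⟩))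
  · exact Or.inr (Or.inl (⟨_, hg.relabel ![2, 3, 1, 4, 0] ![4, 2, 0, 1, 3] (by decide) (by decide) (by decide)⟩))
  · exact Or.inr (Or.inl (⟨_, hg.relabel ![2, 3, 4, 1, 0] ![4, 3, 0, 1, 2] (by decide) (by decide) (by decide)⟩))
  · exact Or.inr (Or.inl (⟨_, hg.relabel ![2, 1, 3, 0, 4] ![3, 1, 0, 2, 4] (by decide) (by decide) (by decide)⟩))
  · exact Or.inr (Or.inl (⟨_, hg.relabel ![1, 2, 0, 3, 4] ![2, 0, 1, 3, 4] (by decide) (by decide) (by decide)⟩))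
  · exact Or.inl (⟨_, hg.relabel ![2, 1, 3, 0, 4] ![3, 1, 0, 2, 4] (by decide) (by decide) (by decide)⟩)
  · exact Or.inl (⟨_, hg.relabel ![1, 2, 0, 3, 4] ![2, 0, 1, 3, 4] (by decide) (by decide) (by decide)⟩)
  · exact Or.inr (Or.inl (⟨_, hg.relabel ![2, 3, 1, 0, 4] ![3, 2, 0, 1, 4] (by decide) (by decide) (by decide)⟩))
  · exact Or.inl (⟨_, hg.relabel ![2, 3, 1, 0, 4] ![3, 2, 0, 1, 4] (by decide) (by decide) (by decide)⟩)
  · exact Or.inr (Or.inl (⟨_, hg.relabel ![1, 0, 2, 3, 4] ![1, 0, 2, 3, 4] (by decide) (by decide) (by decide)⟩))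
  · exact Or.inl (⟨_, hg.relabel ![1, 0, 2, 3, 4] ![1, 0, 2, 3, 4] (by decide) (by decide) (by decide)⟩)
  · exact Or.inr (Or.inl (⟨_, hg.relabel ![2, 1, 0, 3, 4] ![2, 1, 0, 3, 4] (by decide) (by decide) (by decide)⟩))
  · exact Or.inr (Or.inl (⟨_, hg.relabel ![1, 2, 3, 0, 4] ![3, 0, 1, 2, 4] (by decide) (by decide) (by decide)⟩))
  · exact Or.inl (⟨_, hg.relabel ![1, 2, 3, 0, 4] ![3, 0, 1, 2, 4] (by decide) (by decide) (by decide)⟩)
  · exact Or.inl (⟨_, hg.relabel ![2, 1, 0, 3, 4] ![2, 1, 0, 3, 4] (by decide) (by decide) (by decide)⟩)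
  · exact Or.inr (Or.inl (⟨_, hg.relabel ![1, 2, 3, 4, 0] ![4, 0, 1, 2, 3] (by decide) (by decide) (by decide)⟩))
  · exact Or.inr (Or.inr (⟨_, hg.relabel ![1, 0, 2, 3, 4] ![1, 0, 2, 3, 4] (by decide) (by decide) (by decide)⟩))
  · exact Or.inr (Or.inl (⟨_, hg.relabel ![3, 2, 1, 4, 0] ![4, 2, 1, 0, 3] (by decide) (by decide) (by decide)⟩))
  · exact Or.inr (Or.inl (⟨_, hg.relabel ![3, 2, 4, 1, 0] ![4, 3, 1, 0, 2] (by decide) (by decide) (by decide)⟩))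
  · exact Or.inl (⟨_, hg.relabel ![3, 2, 1, 0, 4] ![3, 2, 1, 0, 4] (by decide) (by decide) (by decide)⟩)
  · exact Or.inr (Or.inl (⟨_, hg.relabel ![3, 2, 1, 0, 4] ![3, 2, 1, 0, 4] (by decide) (by decide) (by decide)⟩))
  · exact Or.inr (Or.inl (⟨_, hg.relabel ![0, 1, 2, 3, 4] ![0, 1, 2, 3, 4] (by decide) (by decide) (by decide)⟩))
  · exact Or.inl (⟨_, hg.relabel ![0, 1, 2, 3, 4] ![0, 1, 2, 3, 4] (by decide) (by decide) (by decide)⟩)

end Pool.Agent.J4H92.CP
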