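import Pool.Agent.J4H92.CP.Family
import Pool.Agent.J4H92.CP.Base5

/-!
# Products with few factors and many cycles
-/

set_option autoImplicit false

namespace Pool.Agent.J4H92.CP

open SimpleGraph Pool.Agent.H789R5 Pool.Agent.H283R2.DR

/-- the product and its pinned versions have as few degrees of freedom as possible -/
def Full (L : List FG) : Prop := MuL 2 0 L ∧ MuL 1 0 L ∧ MuL 0 6 L

theorem Full.cons {A : FG} {L : List FG} (hA : Nt A) (h : Full L) : Full (A :: L) :=
  ⟨MuL.point hA.1 (muL_three _) h.1, MuL.point hA.1 h.1 h.2.1, MuL.point hA.1 h.2.1 h.2.2⟩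

theorem Full.append {L : List FG} (h : Full L) : ∀ M : List FG, (∀ A ∈ M, Nt A) → Full (M ++ L)
  | [], _ => h
  | A :: M, hM => Full.cons (hM A List.mem_cons_self)
      (Full.append h M fun B hB => hM B (List.mem_cons_of_mem _ hB))

theorem Full.perm {L L' : List FG} (h : L.Perm L') (hL : Full L') : Full L :=
  ⟨hL.1.perm h, hL.2.1.perm h, hL.2.2.perm h⟩

theorem ct_tri {A : FG} (hA : Nt A) (h : ¬ A.G.IsAcyclic) : Ct A fK := contr_tri hA.1 h

theorem pin2_one {A : FG} (hA : Nt A) (h : ¬ A.G.IsAcyclic) : MuL 2 0 [A] :=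
  MuL.head (ct_tri hA h) (muL_three _) base_C3p

theorem pin1_CC {A B : FG} (hA : Nt A) (hB : Nt B) (hA' : ¬ A.G.IsAcyclic)
    (hB' : ¬ B.G.IsAcyclic) : MuL 1 0 [A, B] := by
  have h1 : MuL 1 0 [B, fK] :=
    MuL.head (ct_tri hB hB') (pin2_one nt_K (fun h => ?_)) base_C3C3p
  · exact MuL.head (ct_tri hA hA') (pin2_one hB hB') (h1.perm (List.Perm.swap _ _ []))
  · have : (⊤ : SimpleGraph (Fin 3)).IsAcyclic := h
    have h2 := (isTree_iff _).2 ⟨connected_top, this⟩
    have h3 := tree_count (A := fK) h2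
    have h4 : (fK.G.edgeSet.ncard) = 3 := by
      show (⊤ : SimpleGraph (Fin 3)).edgeSet.ncard = 3
      rw [Set.ncard_eq_toFinset_card']
      decide
    rw [h4] at h3
    have h5 : Fintype.card fK.V = 3 := Fintype.card_fin 3
    omega

theorem pin1_TTC {A B C : FG} (hA : Nt A) (hB : Nt B) (hC : Nt C) (hC' : ¬ C.G.IsAcyclic) :
    MuL 1 0 [A, B, C] := by
  refine contr_all (j := 1) (k := 0) (n := 2) (fun L hL hN => pin2 L (by omega) hN)
    (L := [A, B, C]) (L' := [fT 2 pS, fT 2 pS, fK]) ?_ [] (by simp) (by simp) base_Q2C3p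
  exact List.Forall₂.cons ⟨ct_two hA, hA, nt_S le_rfl⟩
    (List.Forall₂.cons ⟨ct_two hB, hB, nt_S le_rfl⟩
    (List.Forall₂.cons ⟨ct_tri hC hC', hC, nt_K⟩ List.Forall₂.nil))

theorem not_acyclic_K : ¬ fK.G.IsAcyclic := by
  intro h
  have : (⊤ : SimpleGraph (Fin 3)).IsAcyclic := h
  have h2 := (isTree_iff _).2 ⟨connected_top, this⟩
  have h3 := tree_count (A := fK) h2
  have h4 : (fK.G.edgeSet.ncard) = 3 := by
    show (⊤ : SimpleGraph (Fin 3)).edgeSet.ncard = 3
    rw [Set.ncard_eq_toFinset_card']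
    decide
  rw [h4] at h3
  have h5 : Fintype.card fK.V = 3 := Fintype.card_fin 3
  omega

/-- three factors which are not trees -/
theorem full_CCC {A B C : FG} (hA : Nt A) (hB : Nt B) (hC : Nt C) (hA' : ¬ A.G.IsAcyclic)
    (hB' : ¬ B.G.IsAcyclic) (hC' : ¬ C.G.IsAcyclic) : Full [A, B, C] := by
  refine ⟨pin2 _ (by simp) (by simp [hA, hB, hC]), pin1_TTC hA hB hC hC', ?_⟩
  have h1 : MuL 0 6 [C, fK, fK] :=
    MuL.head (ct_tri hC hC') (pin1_CC nt_K nt_K not_acyclic_K not_acyclic_K) base_C3C3C3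
  have h2 : MuL 0 6 [B, C, fK] := by
    refine MuL.head (ct_tri hB hB') (pin1_CC hC nt_K hC' not_acyclic_K) ?_
    exact h1.perm (List.Perm.swap _ _ _)
  refine MuL.head (ct_tri hA hA') (pin1_CC hB hC hB' hC') ?_
  refine h2.perm ?_
  exact (List.perm_middle (l₁ := [B, C]) (a := fK) (l₂ := [])).symm

/-- two factors which are not trees -/
theorem full_TTCC {A B C D : FG} (hA : Nt A) (hB : Nt B) (hC : Nt C) (hD : Nt D)
    (hC' : ¬ C.G.IsAcyclic) (hD' : ¬ D.G.IsAcyclic) : Full [A, B, C, D] := by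
  refine ⟨pin2 _ (by simp) (by simp [hA, hB, hC, hD]), pin1 _ (by simp)
    (by simp [hA, hB, hC, hD]), ?_⟩
  -- replace D, C, B, A
  have q1 : ∀ {X Y Z : FG}, Nt X → Nt Y → Nt Z → ¬ Z.G.IsAcyclic → MuL 1 0 [X, Y, Z] :=
    fun hX hY hZ hZ' => pin1_TTC hX hY hZ hZ'
  have s0 : MuL 0 6 [fK, fT 2 pS, fT 2 pS, fK] := by
    refine base_Q2C3C3.perm ?_
    exact (List.perm_middle (l₁ := [fT 2 pS, fT 2 pS]) (a := fK) (l₂ := [fK])).symm
  have s1 : MuL 0 6 [D, fT 2 pS, fT 2 pS, fK] :=
    MuL.head (ct_tri hD hD') (q1 (nt_S le_rfl) (nt_S le_rfl) nt_K not_acyclic_K) s0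
  have s2 : MuL 0 6 [fK, fT 2 pS, fT 2 pS, D] := by
    refine s1.perm ?_
    have e1 : [fK, fT 2 pS, fT 2 pS, D].Perm (D :: [fK, fT 2 pS, fT 2 pS]) :=
      List.perm_middle (l₁ := [fK, fT 2 pS, fT 2 pS]) (a := D) (l₂ := [])
    have e2 : [fT 2 pS, fT 2 pS, fK].Perm (fK :: [fT 2 pS, fT 2 pS]) :=
      List.perm_middle (l₁ := [fT 2 pS, fT 2 pS]) (a := fK) (l₂ := [])
    exact e1.trans (e2.symm.cons D)
  have s3 : MuL 0 6 [C, fT 2 pS, fT 2 pS, D] :=
    MuL.head (ct_tri hC hC') (q1 (nt_S le_rfl) (nt_S le_rfl) hD hD') s2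
  have s4 : MuL 0 6 [fT 2 pS, fT 2 pS, C, D] := by
    refine s3.perm ?_
    exact List.perm_middle (l₁ := [fT 2 pS, fT 2 pS]) (a := C) (l₂ := [D])
  have s5 : MuL 0 6 [B, fT 2 pS, C, D] :=
    MuL.head (ct_two hB) (q1 (nt_S le_rfl) hC hD hD') s4
  have s6 : MuL 0 6 [fT 2 pS, B, C, D] := s5.perm (List.Perm.swap _ _ _)
  exact MuL.head (ct_two hA) (q1 hB hC hD hD') s6

theorem full_five {L : List FG} (h5 : 5 ≤ L.length) (hN : ∀ A ∈ L, Nt A)
    (h : ∃ A ∈ L, ¬ A.G.IsAcyclic) : Full L := by
  refine ⟨pin2 L (by omega) hN, pin1 L (by omega) hN, (classify L h5 hN).1 ?_⟩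
  intro hF
  obtain ⟨A, hA, hA'⟩ := h
  exact hA' (hF.2.1 A hA)

/-- **The weights theorem for lists**: the factors which are not trees count twice. -/
theorem weights_list (H T : List FG) (hH : ∀ A ∈ H, Nt A) (hT : ∀ A ∈ T, Nt A)
    (hH' : ∀ A ∈ H, ¬ A.G.IsAcyclic) (hw : 6 ≤ 2 * H.length + T.length) : Full (T ++ H) := by
  have hN : ∀ A ∈ T ++ H, Nt A := by
    intro A hA
    rcases List.mem_append.1 hA with h | h
    · exact hT A h
    · exact hH A h
  match H, hH, hH', hw, hN with
  | [], _, _, hw, hN =>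
    simp only [List.length_nil] at hw
    have : 6 ≤ (T ++ []).length := by rw [List.append_nil]; omega
    exact ⟨pin2 _ (by omega) hN, pin1 _ (by omega) hN, rigid_six _ this hN⟩
  | [A], hH, hH', hw, hN =>
    simp only [List.length_singleton] at hw
    exact full_five (by rw [List.length_append, List.length_singleton]; omega) hN
      ⟨A, by simp, hH' A (by simp)⟩
  | [A, B], hH, hH', hw, hN =>
    simp only [List.length_cons, List.length_nil] at hw
    match T, hT, hw with
    | C :: D :: T', hT, hw =>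
      have := full_TTCC (hT C (by simp)) (hT D (by simp)) (hH A (by simp)) (hH B (by simp))
        (hH' A (by simp)) (hH' B (by simp))
      have h2 := this.append T' fun X hX => hT X (by simp [hX])
      refine h2.perm ?_
      have e : C :: D :: T' ++ [A, B] = ([C, D] ++ T') ++ [A, B] := rfl
      rw [e]
      have e2 : T' ++ [C, D, A, B] = (T' ++ [C, D]) ++ [A, B] := by simp
      rw [e2]
      exact List.perm_append_comm.append_right _
    | [C], hT, hw => simp at hw
    | [], hT, hw => simp at hw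
  | A :: B :: C :: H', hH, hH', hw, hN =>
    have h1 := full_CCC (hH A (by simp)) (hH B (by simp)) (hH C (by simp))
      (hH' A (by simp)) (hH' B (by simp)) (hH' C (by simp))
    have h2 := h1.append (T ++ H') (by
      intro X hX
      rcases List.mem_append.1 hX with h | h
      · exact hT X h
      · exact hH X (by simp [h]))
    refine h2.perm ?_
    rw [List.append_assoc]
    refine List.Perm.append_left T ?_
    exact List.perm_append_comm (l₁ := [A, B, C]) (l₂ := H')

/-- **The weights theorem for families.** -/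
theorem weights_fam {ι : Type} [Fintype ι] {V : ι → Type} [∀ i, Fintype (V i)]
    [Fintype (∀ i, V i)] (G : ∀ i, SimpleGraph (V i)) (hG : ∀ i, (G i).Connected)
    (hV : ∀ i, 2 ≤ Fintype.card (V i))
    (hw : 6 ≤ Fintype.card ι + {i | ¬ (G i).IsTree}.ncard) :
    GenRigid 3 (famProd G) ∧ genRank 3 (famProd G) + 6 = 3 * Fintype.card (∀ i, V i) := by
  classical
  let e : ι ≃ Fin (Fintype.card ι) := Fintype.equivFin ι
  obtain ⟨f⟩ := fam_iso (Fintype.card ι) (fun k => V (e.symm k)) (fun k => G (e.symm k))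
  set L := famL fun k => G (e.symm k) with hL
  have hlen : L.length = Fintype.card ι := List.length_ofFn
  have hmem : ∀ A ∈ L, ∃ i, A = ⟨V i, inferInstance, G i⟩ := by
    intro A hA
    obtain ⟨k, hk⟩ := (List.mem_ofFn' _ _).1 hA
    exact ⟨e.symm k, hk.symm⟩
  have hN : ∀ A ∈ L, Nt A := by
    intro A hA
    obtain ⟨i, rfl⟩ := hmem A hA
    exact ⟨hG i, hV i⟩
  set H := L.filter (fun A => decide (¬ A.G.IsAcyclic)) with hH
  set T := L.filter (fun A => !decide (¬ A.G.IsAcyclic)) with hT
  have hperm : (H ++ T).Perm L := List.filter_append_perm _ _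
  have hcount : H.length = {i | ¬ (G i).IsTree}.ncard := by
    have h1 : H.length = L.countP (fun A => decide (¬ A.G.IsAcyclic)) :=
      (List.countP_eq_length_filter ..).symm
    have h2 : ∀ (n : ℕ) (F : Fin n → FG), (List.ofFn F).countP (fun A => decide (¬ A.G.IsAcyclic)) =
        ∑ i, if ¬ (F i).G.IsAcyclic then 1 else 0 := by
      intro n
      induction n with
      | zero => intro F; simp
      | succ n ih =>
        intro F
        rw [List.ofFn_succ, List.countP_cons, ih, Fin.sum_univ_succ]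
        simp only [decide_eq_true_eq]
        ring
    rw [h1, hL]
    unfold famL
    rw [h2, Equiv.sum_comp e.symm (fun i => if ¬ (G i).IsAcyclic then 1 else 0),
      Set.ncard_eq_toFinset_card', Finset.sum_boole]
    simp only [Nat.cast_id]
    congr 1
    ext i
    simp only [Finset.mem_filter, Finset.mem_univ, true_and, Set.mem_toFinset, Set.mem_ofPred_eq]
    refine not_congr ⟨fun h => ⟨hG i, h⟩, fun h => h.isAcyclic⟩
  have hfull : Full (T ++ H) := by
    refine weights_list H T (fun A hA => hN A (hperm.mem_iff.1 (by simp [hA])))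
      (fun A hA => hN A (hperm.mem_iff.1 (by simp [hA]))) ?_ ?_
    · intro A hA
      have := (List.mem_filter.1 hA).2
      exact of_decide_eq_true this
    · have h3 := hperm.length_eq
      rw [List.length_append] at h3
      omega
  have hfull' : Full L := hfull.perm (hperm.symm.trans List.perm_append_comm)
  have hmu : Mu 0 6 (famProd G) := Mu.of_iso ((famRe e G).trans f) hfull'.2.2
  have h1 := mu_rank hmu
  have hcard : 3 ≤ Fintype.card (∀ i, V i) := by
    have hk : 3 ≤ Fintype.card ι := by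
      have h4 : {i | ¬ (G i).IsTree}.ncard ≤ Fintype.card ι := by
        rw [Set.ncard_eq_toFinset_card']
        exact Finset.card_le_univ _
      omega
    have ev : Fintype.card (∀ i, V i) = nL L := Fintype.card_congr ((famRe e G).trans f).toEquiv
    have : ∀ M : List FG, (∀ A ∈ M, Nt A) → M.length < nL M := by
      intro M
      induction M with
      | nil => intro _; simp [nL_nil]
      | cons A T ih =>
        intro h
        have h1 := ih fun B hB => h B (List.mem_cons_of_mem _ hB)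
        have h2 : 2 ≤ Fintype.card A.V := (h A List.mem_cons_self).2
        rw [nL_cons, List.length_cons]
        nlinarith
    have h5 := this L hN
    omega
  have h2 := rank_le' (famProd G) hcard
  have h6 := rank_le (famProd G)
  have hr : genRank 3 (famProd G) = min (famProd G).edgeSet.ncard
      (3 * Fintype.card (∀ i, V i) - 6) := by omega
  exact ⟨(Pool.Agent.TH409.RG.rigid_iff_of_rank hcard hr).2 (by omega), by omega⟩

end Pool.Agent.J4H92.CP
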